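import Mathlib

set_option autoImplicit false

namespace Pool.Agent.Lib.MP_9aa437_nt.Quad

open Finset

/-- harmonic sums -/
noncomputable def H (N : ℕ) : ℝ := ∑ j ∈ Icc 1 N, (1 / j : ℝ)

lemma H_nonneg (N : ℕ) : 0 ≤ H N := Finset.sum_nonneg fun _ _ => by positivity

lemma H_mono {a b : ℕ} (h : a ≤ b) : H a ≤ H b :=
  Finset.sum_le_sum_of_subset_of_nonneg (Finset.Icc_subset_Icc_right h) fun _ _ _ => by positivity

/-- numbers in an arithmetic progression beyond a base point -/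
lemma ap_tail {d Y a : ℕ} (hd : 0 < d) (S : Finset ℕ)
    (hS : ∀ k ∈ S, a < k ∧ k ≤ Y ∧ k % d = a % d) :
    ∑ k ∈ S, (1 / k : ℝ) ≤ H Y / d := by
  have hj : ∀ k ∈ S, ∃ j, 1 ≤ j ∧ j ≤ Y ∧ k = a + d * j := by
    intro k hk
    obtain ⟨h1, h2, h3⟩ := hS k hk
    have h4 : d ∣ k - a := (Nat.modEq_iff_dvd' h1.le).mp h3.symm
    obtain ⟨j, hj⟩ := h4
    refine ⟨j, ?_, ?_, by omega⟩
    · rcases Nat.eq_zero_or_pos j with rfl | h
      · omega
      · exact h
    · have : j ≤ d * j := Nat.le_mul_of_pos_left j hd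
      omega
  choose! f hf using hj
  have hinj : Set.InjOn f S := by
    intro k hk k' hk' h
    rw [(hf k hk).2.2, (hf k' hk').2.2, h]
  have hd' : (0 : ℝ) < d := by exact_mod_cast hd
  calc ∑ k ∈ S, (1 / k : ℝ) ≤ ∑ k ∈ S, (1 / (f k : ℝ)) / d := by
        refine Finset.sum_le_sum fun k hk => ?_
        obtain ⟨h1, h2, h3⟩ := hf k hk
        have h4 : (1 : ℝ) ≤ f k := by exact_mod_cast h1
        rw [div_div]
        have h5 : (f k : ℝ) * d ≤ k := by
          have h6 : f k * d = d * f k := mul_comm _ _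
          have : f k * d ≤ k := by omega
          exact_mod_cast this
        exact one_div_le_one_div_of_le (by positivity) h5
    _ = (∑ j ∈ S.image f, (1 / j : ℝ)) / d := by
        rw [Finset.sum_image hinj, Finset.sum_div]
    _ ≤ H Y / d := by
        gcongr
        refine Finset.sum_le_sum_of_subset_of_nonneg ?_ fun _ _ _ => by positivity
        intro j hj
        obtain ⟨k, hk, rfl⟩ := Finset.mem_image.mp hj
        exact Finset.mem_Icc.mpr ⟨(hf k hk).1, (hf k hk).2.1⟩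

lemma ap_sum {d Y : ℕ} {β : ℝ} (hd : 0 < d) (hβ : 0 ≤ β) (S : Finset ℕ)
    (hS : ∀ k ∈ S, k ≤ Y ∧ (1 / k : ℝ) ≤ β) (hc : ∀ k ∈ S, ∀ k' ∈ S, k % d = k' % d) :
    ∑ k ∈ S, (1 / k : ℝ) ≤ β + H Y / d := by
  have hd' : (0 : ℝ) < d := by exact_mod_cast hd
  rcases S.eq_empty_or_nonempty with rfl | hne
  · rw [Finset.sum_empty]
    have := H_nonneg Y
    positivity
  · set k0 := S.min' hne with hk0
    have hmem : k0 ∈ S := S.min'_mem hne
    rw [← Finset.insert_erase hmem, Finset.sum_insert (Finset.notMem_erase _ _)]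
    have h1 := ap_tail (a := k0) (Y := Y) hd (S.erase k0) (by
      intro k hk
      obtain ⟨h2, h3⟩ := Finset.mem_erase.mp hk
      exact ⟨lt_of_le_of_ne (S.min'_le k h3) (Ne.symm h2), (hS k h3).1, hc k h3 k0 hmem⟩)
    have h2 := (hS k0 hmem).2
    linarith

lemma ap_big {d Y : ℕ} (hd : 0 < d) (S : Finset ℕ)
    (hS : ∀ k ∈ S, d < k ∧ k ≤ Y) (hc : ∀ k ∈ S, ∀ k' ∈ S, k % d = k' % d) :
    ∑ k ∈ S, (1 / k : ℝ) ≤ H Y / d := by
  have hd' : (0 : ℝ) < d := by exact_mod_cast hd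
  rcases S.eq_empty_or_nonempty with rfl | ⟨k0, hk0⟩
  · rw [Finset.sum_empty]
    have := H_nonneg Y
    positivity
  · refine ap_tail (a := k0 % d) hd S fun k hk => ⟨?_, (hS k hk).2, ?_⟩
    · have := Nat.mod_lt k0 hd
      have := (hS k hk).1
      omega
    · rw [Nat.mod_mod]
      exact hc k hk k0 hk0

lemma sum_sq_le_two (N : ℕ) : ∑ j ∈ Icc 1 N, (1 / (j : ℝ) ^ 2) ≤ 2 := by
  have h : ∀ n : ℕ, ∑ j ∈ Icc 1 (n + 1), (1 / (j : ℝ) ^ 2) ≤ 2 - 1 / ((n : ℝ) + 1) := by
    intro n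
    induction n with
    | zero => norm_num
    | succ n ih =>
      rw [Finset.sum_Icc_succ_top (by omega)]
      have hn : (0 : ℝ) ≤ n := Nat.cast_nonneg n
      have h1 : (1 : ℝ) / ((n : ℝ) + 1 + 1) ^ 2 ≤ 1 / ((n : ℝ) + 1) - 1 / ((n : ℝ) + 1 + 1) := by
        rw [div_sub_div _ _ (by positivity) (by positivity), div_le_div_iff₀ (by positivity)
          (by positivity)]
        nlinarith
      push_cast at h1 ih ⊢
      linarith
  rcases N with _ | n
  · simp
  · refine (h n).trans ?_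
    have : (0 : ℝ) ≤ 1 / ((n : ℝ) + 1) := by positivity
    linarith

lemma sum_sq_tail {w Y : ℕ} (hw : 0 < w) : ∑ j ∈ Ioc w Y, (1 / (j : ℝ) ^ 2) ≤ 1 / (w : ℝ) := by
  rcases le_total w Y with h | h
  · have h1 := sum_Ioc_inv_sq_le_sub (α := ℝ) hw.ne' h
    have h2 : (0 : ℝ) ≤ (Y : ℝ)⁻¹ := by positivity
    simp only [one_div]
    linarith
  · rw [Finset.Ioc_eq_empty (by omega), Finset.sum_empty]
    positivity

/-- the number of divisors is at most twice the number of small divisors -/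
lemma card_divisors_le {n N : ℕ} (hn : 0 < n) (hN : n ≤ N) (D : Finset ℕ) :
    (D.filter (fun d => d ∣ n)).card ≤
      2 * ((Icc 1 N).filter (fun e => e ∣ n ∧ e * e ≤ n)).card := by
  set E := (Icc 1 N).filter (fun e => e ∣ n ∧ e * e ≤ n) with hE
  have h1 : D.filter (fun d => d ∣ n) ⊆ E ∪ E.image (fun e => n / e) := by
    intro d hd
    have hdn := (Finset.mem_filter.mp hd).2
    have hd0 : 0 < d := Nat.pos_of_dvd_of_pos hdn hn
    have hdle : d ≤ n := Nat.le_of_dvd hn hdn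
    rw [Finset.mem_union]
    rcases le_or_gt (d * d) n with h | h
    · left
      rw [hE, Finset.mem_filter, Finset.mem_Icc]
      exact ⟨⟨hd0, hdle.trans hN⟩, hdn, h⟩
    · right
      rw [Finset.mem_image]
      have e1 : n / d * d = n := Nat.div_mul_cancel hdn
      have hq0 : 0 < n / d := Nat.div_pos hdle hd0
      refine ⟨n / d, ?_, ?_⟩
      · rw [hE, Finset.mem_filter, Finset.mem_Icc]
        refine ⟨⟨hq0, (Nat.div_le_self n d).trans hN⟩, Nat.div_dvd_of_dvd hdn, ?_⟩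
        have h2 : n / d < d := by
          by_contra hcon
          push Not at hcon
          have : d * d ≤ n / d * d := Nat.mul_le_mul_right d hcon
          omega
        calc n / d * (n / d) ≤ n / d * d := Nat.mul_le_mul_left _ h2.le
          _ = n := e1
      · exact Nat.div_div_self hdn hn.ne'
  calc (D.filter (fun d => d ∣ n)).card ≤ (E ∪ E.image (fun e => n / e)).card :=
        Finset.card_le_card h1
    _ ≤ E.card + (E.image (fun e => n / e)).card := Finset.card_union_le _ _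
    _ ≤ E.card + E.card := Nat.add_le_add_left Finset.card_image_le _
    _ = 2 * E.card := by ring

/-- average of the divisor function along a sequence -/
lemma hyp {A Y N : ℕ} (f : ℕ → ℕ) (hf0 : ∀ n ∈ Icc 1 Y, 0 < f n)
    (hfA : ∀ n ∈ Icc 1 Y, f n ≤ A * n) (hN : ∀ n ∈ Icc 1 Y, f n ≤ N)
    (hc : ∀ e, ∀ n ∈ Icc 1 Y, ∀ n' ∈ Icc 1 Y, e ∣ f n → e ∣ f n' → n % e = n' % e)
    (D : Finset ℕ) :
    ∑ n ∈ Icc 1 Y, (1 / n : ℝ) * ((D.filter (fun d => d ∣ f n)).card : ℝ) ≤
      2 * (2 * A + H Y * H N) := by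
  have h1 : ∑ n ∈ Icc 1 Y, (1 / n : ℝ) * ((D.filter (fun d => d ∣ f n)).card : ℝ) ≤
      2 * ∑ n ∈ Icc 1 Y, ∑ e ∈ Icc 1 N, if e ∣ f n ∧ e * e ≤ f n then (1 / n : ℝ) else 0 := by
    rw [Finset.mul_sum]
    refine Finset.sum_le_sum fun n hn => ?_
    have h2 := card_divisors_le (hf0 n hn) (hN n hn) D
    have h3 : ((D.filter (fun d => d ∣ f n)).card : ℝ) ≤
        2 * (((Icc 1 N).filter (fun e => e ∣ f n ∧ e * e ≤ f n)).card : ℝ) := by
      exact_mod_cast h2
    have h4 : (0 : ℝ) ≤ 1 / n := by positivity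
    calc (1 / n : ℝ) * ((D.filter (fun d => d ∣ f n)).card : ℝ)
        ≤ (1 / n : ℝ) * (2 * (((Icc 1 N).filter (fun e => e ∣ f n ∧ e * e ≤ f n)).card : ℝ)) := by
          gcongr
      _ = _ := by
          rw [← Finset.sum_filter, Finset.sum_const, nsmul_eq_mul]
          ring
  refine h1.trans ?_
  have h5 : ∑ n ∈ Icc 1 Y, ∑ e ∈ Icc 1 N, (if e ∣ f n ∧ e * e ≤ f n then (1 / n : ℝ) else 0) ≤
      2 * A + H Y * H N := by
    rw [Finset.sum_comm]
    have h6 : ∀ e ∈ Icc 1 N,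
        ∑ n ∈ Icc 1 Y, (if e ∣ f n ∧ e * e ≤ f n then (1 / n : ℝ) else 0) ≤
          A * (1 / (e : ℝ) ^ 2) + H Y * (1 / e) := by
      intro e he
      have he1 : 1 ≤ e := (Finset.mem_Icc.mp he).1
      have he2 : (0 : ℝ) < e := by exact_mod_cast he1
      rw [← Finset.sum_filter]
      have h7 := ap_sum (d := e) (Y := Y) (β := A * (1 / (e : ℝ) ^ 2)) he1 (by positivity)
        ((Icc 1 Y).filter (fun n => e ∣ f n ∧ e * e ≤ f n)) (by
          intro n hn
          obtain ⟨h8, h9, h10⟩ := Finset.mem_filter.mp hn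
          obtain ⟨h11, h12⟩ := Finset.mem_Icc.mp h8
          refine ⟨h12, ?_⟩
          have h13 : (0 : ℝ) < n := by exact_mod_cast h11
          have h14 : (e : ℝ) * e ≤ A * n := by exact_mod_cast h10.trans (hfA n h8)
          rw [mul_one_div, div_le_div_iff₀ h13 (by positivity)]
          nlinarith) (by
          intro n hn n' hn'
          exact hc e n (Finset.mem_filter.mp hn).1 n' (Finset.mem_filter.mp hn').1
            (Finset.mem_filter.mp hn).2.1 (Finset.mem_filter.mp hn').2.1)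
      calc _ ≤ _ := h7
        _ = _ := by ring
    refine (Finset.sum_le_sum h6).trans ?_
    rw [Finset.sum_add_distrib, ← Finset.mul_sum, ← Finset.mul_sum]
    have h8 := sum_sq_le_two N
    have h9 : (0 : ℝ) ≤ A := Nat.cast_nonneg A
    have h10 : ∑ e ∈ Icc 1 N, (1 / e : ℝ) = H N := rfl
    rw [h10]
    nlinarith
  linarith

end Pool.Agent.Lib.MP_9aa437_nt.Quad
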