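import Pool.Agent.Lib.MP_9aa437_nt.Brun
import Pool.Agent.Lib.MP_9aa437_nt.Quad.Sums

set_option autoImplicit false

namespace Pool.Agent.Lib.MP_9aa437_nt.Quad

open Finset

/-- the modulus attached to `(y, k)` -/
def M (P y k : ℕ) : ℕ := (5 * y - 1) * P * k - 1

lemma M_succ {P y k : ℕ} (hP : 0 < P) (hy : 0 < y) (hk : 0 < k) :
    M P y k + 1 = (5 * y - 1) * P * k := by
  have h : 0 < (5 * y - 1) * P * k := Nat.mul_pos (Nat.mul_pos (by omega) hP) hk
  unfold M
  omega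

lemma M_lower {P y k : ℕ} (hP : 0 < P) (hy : 0 < y) (hk : 0 < k) :
    3 * (P * y * k) ≤ M P y k := by
  have h1 := M_succ hP hy hk
  have h2 : 4 * y ≤ 5 * y - 1 := by omega
  have h3 : 4 * y * P * k ≤ (5 * y - 1) * P * k := by gcongr
  have h4 : 0 < P * y * k := by positivity
  have h5 : 4 * y * P * k = 4 * (P * y * k) := by ring
  omega

lemma M_upper {P y k : ℕ} (hP : 0 < P) (hy : 0 < y) (hk : 0 < k) :
    M P y k ≤ 5 * (P * y * k) := by
  have h1 := M_succ hP hy hk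
  have h2 : 5 * y - 1 ≤ 5 * y := by omega
  have h3 : (5 * y - 1) * P * k ≤ 5 * y * P * k := by gcongr
  have h5 : 5 * y * P * k = 5 * (P * y * k) := by ring
  omega

lemma M_pos {P y k : ℕ} (hP : 0 < P) (hy : 0 < y) (hk : 0 < k) : 2 < M P y k := by
  have h1 := M_lower hP hy hk
  have h4 : 0 < P * y * k := by positivity
  omega

lemma cast_M {P y k d : ℕ} (hP : 0 < P) (hy : 0 < y) (hk : 0 < k) :
    ((M P y k : ℕ) : ZMod d) = (5 * (y : ZMod d) - 1) * P * k - 1 := by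
  have h1 : ((M P y k + 1 : ℕ) : ZMod d) = (((5 * y - 1) * P * k : ℕ) : ZMod d) := by
    rw [M_succ hP hy hk]
  rw [Nat.cast_mul, Nat.cast_mul, Nat.cast_sub (by omega)] at h1
  push_cast at h1
  rw [← h1]; ring

lemma dvd_iff {P y k d : ℕ} (hP : 0 < P) (hy : 0 < y) (hk : 0 < k) :
    d ∣ M P y k ↔ (5 * (y : ZMod d) - 1) * P * k = 1 := by
  rw [← ZMod.natCast_eq_zero_iff, cast_M hP hy hk, sub_eq_zero]

lemma mod_iff (a b d : ℕ) : a % d = b % d ↔ (a : ZMod d) = (b : ZMod d) :=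
  (ZMod.natCast_eq_natCast_iff' a b d).symm

/-- `k` is determined modulo `d` by `y` -/
lemma c4 {P y k y' k' d : ℕ} (hP : 0 < P) (hy : 0 < y) (hk : 0 < k) (hy' : 0 < y') (hk' : 0 < k')
    (h : d ∣ M P y k) (h' : d ∣ M P y' k') (hyy : y % d = y' % d) : k % d = k' % d := by
  rw [mod_iff] at hyy ⊢
  rw [dvd_iff hP hy hk] at h
  rw [dvd_iff hP hy' hk', ← hyy] at h'
  calc (k : ZMod d) = k * ((5 * (y : ZMod d) - 1) * P * k') := by rw [h', mul_one]
    _ = k' * ((5 * (y : ZMod d) - 1) * P * k) := by ring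
    _ = k' := by rw [h, mul_one]

lemma c2 {P y k y' k' d : ℕ} (hP : 0 < P) (h5 : 5 ∣ P) (hy : 0 < y) (hk : 0 < k) (hy' : 0 < y')
    (hk' : 0 < k') (h : d ∣ M P y k) (h' : d ∣ M P y' k') (hkk : k % d = k' % d) :
    y % d = y' % d := by
  obtain ⟨R, rfl⟩ := h5
  rw [mod_iff] at hkk ⊢
  rw [dvd_iff hP hy hk] at h
  rw [dvd_iff hP hy' hk', ← hkk] at h'
  push_cast at h h'
  linear_combination (5 * (y : ZMod d) - 1) * R * k * (((5 * (y : ZMod d) - 1) * (h - h')) -
    5 * (y - y') * h) - (y - y') * h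

lemma c3 {P y k y' k' d : ℕ} (hP : 0 < P) (hy : 0 < y) (hk : 0 < k) (hy' : 0 < y')
    (hk' : 0 < k') (h : d ∣ M P y k) (hyy : y % d = y' % d) (hkk : k % d = k' % d) :
    d ∣ M P y' k' := by
  rw [mod_iff] at hyy hkk
  rw [dvd_iff hP hy hk] at h
  rw [dvd_iff hP hy' hk', ← hyy, ← hkk]
  exact h

lemma c5 {P y k d : ℕ} (hP : 0 < P) (hy : 0 < y) (hk : 0 < k) (hd : 1 < d) (h : d ∣ M P y k) :
    1 ≤ k % d := by
  rcases Nat.eq_zero_or_pos (k % d) with h0 | h0
  · exfalso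
    have : Fact (1 < d) := ⟨hd⟩
    have h1 : (k : ZMod d) = 0 := by
      rw [ZMod.natCast_eq_zero_iff]
      exact Nat.dvd_of_mod_eq_zero h0
    rw [dvd_iff hP hy hk, h1, mul_zero] at h
    exact zero_ne_one h
  · exact h0

/-- `l` lies in the good class mod `M P y k` -/
def Hit (P t Z y k l : ℕ) : Prop := M P y k ∣ (5 * y - 1) * (t * (l + Z)) + y

instance (P t Z y k l : ℕ) : Decidable (Hit P t Z y k l) := by
  unfold Hit; infer_instance

lemma hit_cast {P t Z y k l d : ℕ} (hy : 0 < y) (hd : d ∣ M P y k)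
    (h : Hit P t Z y k l) : (5 * (y : ZMod d) - 1) * (t * (l + Z)) + y = 0 := by
  have h1 : d ∣ (5 * y - 1) * (t * (l + Z)) + y := hd.trans h
  rw [← ZMod.natCast_eq_zero_iff, Nat.cast_add, Nat.cast_mul, Nat.cast_sub (by omega)] at h1
  push_cast at h1
  exact h1

lemma hit_iff {P t Z y k l : ℕ} (hy : 0 < y) : Hit P t Z y k l ↔
    (5 * (y : ZMod (M P y k)) - 1) * (t * (l + Z)) + y = 0 := by
  refine ⟨hit_cast hy dvd_rfl, fun h => ?_⟩
  unfold Hit
  rw [← ZMod.natCast_eq_zero_iff, Nat.cast_add, Nat.cast_mul, Nat.cast_sub (by omega)]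
  push_cast
  exact h

lemma hit_compat {P t Z y k y' k' l d : ℕ} (hy : 0 < y) (hy' : 0 < y') (hd : d ∣ M P y k)
    (hd' : d ∣ M P y' k') (h : Hit P t Z y k l) (h' : Hit P t Z y' k' l) : y % d = y' % d := by
  have h1 := hit_cast hy hd h
  have h2 := hit_cast hy' hd' h'
  rw [mod_iff]
  linear_combination (5 * (y : ZMod d) - 1) * h2 - (5 * (y' : ZMod d) - 1) * h1

lemma hit_class {P t Z y k : ℕ} (hP : 0 < P) (ht : t ∣ P) (hy : 0 < y) (hk : 0 < k) :
    ∃ s < M P y k, ∀ l, Hit P t Z y k l ↔ l % M P y k = s := by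
  obtain ⟨R, hR⟩ := ht
  have hM := M_pos hP hy hk
  have : NeZero (M P y k) := ⟨by omega⟩
  set m := M P y k with hm
  have hu : (5 * (y : ZMod m) - 1) * P * k = 1 := (dvd_iff hP hy hk).mp dvd_rfl
  have hPc : (P : ZMod m) = t * R := by rw [hR]; push_cast; ring
  rw [hPc] at hu
  set c : ZMod m := (-(y : ZMod m)) * (R * k) - Z with hc
  refine ⟨c.val, ZMod.val_lt _, fun l => ?_⟩
  rw [hit_iff hy, ← hm]
  have h1 : l % m = c.val ↔ (l : ZMod m) = c := by
    rw [← ZMod.val_natCast]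
    exact ⟨fun h => ZMod.val_injective _ h, fun h => by rw [h]⟩
  rw [h1]
  constructor
  · intro h
    rw [hc]
    linear_combination (R * k) * h - ((l : ZMod m) + Z) * hu
  · intro h
    rw [h, hc]
    linear_combination (-(y : ZMod m)) * hu

lemma one_count {P t Z y k : ℕ} (X : ℕ) (hP : 0 < P) (ht : t ∣ P) (hy : 0 < y) (hk : 0 < k) :
    |(((Ioc 0 X).filter (fun l => Hit P t Z y k l)).card : ℝ) - X / M P y k| ≤ 1 := by
  obtain ⟨s, hs, h⟩ := hit_class (Z := Z) hP ht hy hk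
  have hM := M_pos hP hy hk
  have e : (Ioc 0 X).filter (fun l => Hit P t Z y k l) =
      (Ioc 0 X).filter (fun l => l % M P y k = s) := Finset.filter_congr fun l _ => h l
  rw [e]
  exact count_class X (M P y k) s (by omega) hs

/-- the correlation of two moduli with a common factor -/
noncomputable def E (P y k y' k' : ℕ) : ℝ :=
  if 1 < Nat.gcd (M P y k) (M P y' k') ∧
      y % Nat.gcd (M P y k) (M P y' k') = y' % Nat.gcd (M P y k) (M P y' k') ∧
      k % Nat.gcd (M P y k) (M P y' k') = k' % Nat.gcd (M P y k) (M P y' k') then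
    (Nat.gcd (M P y k) (M P y' k') : ℝ) / (M P y k * M P y' k') else 0

lemma E_nonneg (P y k y' k' : ℕ) : 0 ≤ E P y k y' k' := by
  unfold E
  split_ifs
  · positivity
  · exact le_rfl

lemma two_count {P t Z y k y' k' : ℕ} (X : ℕ) (hP : 0 < P) (ht : t ∣ P) (hy : 0 < y) (hk : 0 < k)
    (hy' : 0 < y') (hk' : 0 < k') :
    (((Ioc 0 X).filter (fun l => Hit P t Z y k l ∧ Hit P t Z y' k' l)).card : ℝ) ≤
      1 + X * ((1 / M P y k) * (1 / M P y' k')) + X * E P y k y' k' := by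
  have hM := M_pos hP hy hk
  have hM' := M_pos hP hy' hk'
  have hMr : (0 : ℝ) < M P y k := by exact_mod_cast (by omega : 0 < M P y k)
  have hMr' : (0 : ℝ) < M P y' k' := by exact_mod_cast (by omega : 0 < M P y' k')
  have hE := E_nonneg P y k y' k'
  rcases Finset.eq_empty_or_nonempty
    ((Ioc 0 X).filter (fun l => Hit P t Z y k l ∧ Hit P t Z y' k' l)) with h0 | ⟨l0, hl0⟩
  · rw [h0, Finset.card_empty, Nat.cast_zero]
    positivity
  · obtain ⟨_, hl1, hl2⟩ := Finset.mem_filter.mp hl0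
    set g := Nat.gcd (M P y k) (M P y' k') with hg
    set L := Nat.lcm (M P y k) (M P y' k') with hL
    have hgL : g * L = M P y k * M P y' k' := Nat.gcd_mul_lcm _ _
    have hL0 : 0 < L := Nat.lcm_pos (by omega) (by omega)
    have hLr : (0 : ℝ) < L := by exact_mod_cast hL0
    have hg0 : 0 < g := Nat.gcd_pos_of_pos_left _ (by omega)
    have hsub : (Ioc 0 X).filter (fun l => Hit P t Z y k l ∧ Hit P t Z y' k' l) ⊆
        (Ioc 0 X).filter (fun l => l % L = l0 % L) := by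
      intro l hl
      obtain ⟨h1, h2, h3⟩ := Finset.mem_filter.mp hl
      rw [Finset.mem_filter]
      refine ⟨h1, ?_⟩
      obtain ⟨s, _, hs⟩ := hit_class (Z := Z) hP ht hy hk
      obtain ⟨s', _, hs'⟩ := hit_class (Z := Z) hP ht hy' hk'
      have e1 : l ≡ l0 [MOD M P y k] := by
        rw [Nat.ModEq, (hs l).mp h2, (hs l0).mp hl1]
      have e2 : l ≡ l0 [MOD M P y' k'] := by
        rw [Nat.ModEq, (hs' l).mp h3, (hs' l0).mp hl2]
      have e3 : l ≡ l0 [MOD L] := by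
        rw [Nat.modEq_iff_dvd] at e1 e2 ⊢
        rw [Int.natCast_dvd] at e1 e2 ⊢
        exact Nat.lcm_dvd e1 e2
      exact e3
    have h1 := (abs_le.mp (count_class X L (l0 % L) hL0 (Nat.mod_lt _ hL0))).2
    have h2 : (((Ioc 0 X).filter (fun l => Hit P t Z y k l ∧ Hit P t Z y' k' l)).card : ℝ) ≤
        ((Ioc 0 X).filter (fun l => l % L = l0 % L)).card := by
      exact_mod_cast Finset.card_le_card hsub
    have hgLr : (g : ℝ) * L = M P y k * M P y' k' := by exact_mod_cast hgL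
    have h3 : (X : ℝ) / L = X * ((g : ℝ) / (M P y k * M P y' k')) := by
      rw [← hgLr]
      have : (0 : ℝ) < g := by exact_mod_cast hg0
      field_simp
    rcases (by omega : g = 1 ∨ 1 < g) with hg1 | hg1
    · rw [hg1] at h3
      have h4 : (X : ℝ) * (((1 : ℕ) : ℝ) / (M P y k * M P y' k')) =
          X * ((1 / M P y k) * (1 / M P y' k')) := by
        push_cast
        field_simp
      have h5 : 0 ≤ (X : ℝ) * E P y k y' k' := by positivity
      linarith
    · have hc := hit_compat hy hy' (Nat.gcd_dvd_left _ _) (Nat.gcd_dvd_right _ _) hl1 hl2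
      have hc2 := c4 hP hy hk hy' hk' (Nat.gcd_dvd_left _ _) (Nat.gcd_dvd_right _ _) hc
      have h4 : E P y k y' k' = (g : ℝ) / (M P y k * M P y' k') := by
        unfold E
        rw [if_pos ⟨hg1, hc, hc2⟩]
      rw [h4]
      have h5 : 0 ≤ (X : ℝ) * ((1 / M P y k) * (1 / M P y' k')) := by positivity
      linarith

end Pool.Agent.Lib.MP_9aa437_nt.Quad
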