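import Pool.Agent.Lib.MP_9aa437_nt.Quad.Arith

set_option autoImplicit false

namespace Pool.Agent.Lib.MP_9aa437_nt.Quad

open Finset

lemma gcd_large {P w y k g : ℕ} (hP : 0 < P) (hw : ∀ q : ℕ, q.Prime → q ≤ w → q ∣ P)
    (hy : 0 < y) (hk : 0 < k) (hg : 1 < g) (h : g ∣ M P y k) : w < g := by
  by_contra hcon
  push Not at hcon
  have hq := Nat.minFac_prime (n := g) (by omega)
  have h1 : g.minFac ∣ g := Nat.minFac_dvd g
  have h2 : g.minFac ≤ g := Nat.minFac_le (by omega)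
  have h3 := hw _ hq (h2.trans hcon)
  have h4 : g.minFac ∣ M P y k := h1.trans h
  have h5 : g.minFac ∣ M P y k + 1 := by
    rw [M_succ hP hy hk]
    exact ((h3.mul_left (5 * y - 1))).mul_right k
  have h6 : g.minFac ∣ 1 := (Nat.dvd_add_right h4).mp h5
  exact hq.one_lt.ne' (Nat.dvd_one.mp h6)

/-- all the numbers in `[1, d]` with the same residue are equal -/
lemma eq_of_mod {d a b : ℕ} (ha : 1 ≤ a) (ha' : a ≤ d) (hb : 1 ≤ b) (hb' : b ≤ d)
    (h : a % d = b % d) : a = b := by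
  rcases Nat.lt_or_ge a d with h1 | h1 <;> rcases Nat.lt_or_ge b d with h2 | h2
  · rwa [Nat.mod_eq_of_lt h1, Nat.mod_eq_of_lt h2] at h
  · have : b = d := le_antisymm hb' h2
    subst this
    rw [Nat.mod_eq_of_lt h1, Nat.mod_self] at h
    omega
  · have : a = d := le_antisymm ha' h1
    subst this
    rw [Nat.mod_eq_of_lt h2, Nat.mod_self] at h
    omega
  · omega

/-- log-density of pairs with `d ∣ M` -/
noncomputable def G (P Y d : ℕ) : ℝ :=
  ∑ y ∈ Icc 1 Y, ∑ k ∈ Icc 1 Y, if d ∣ M P y k then (1 / y : ℝ) * (1 / k) else 0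

lemma G_nonneg (P Y d : ℕ) : 0 ≤ G P Y d :=
  Finset.sum_nonneg fun _ _ => Finset.sum_nonneg fun _ _ => by split_ifs <;> positivity

lemma sum_small_le {Y : ℕ} (p : ℕ → ℕ → Prop) [∀ a b, Decidable (p a b)]
    (hp : ∀ a ∈ Icc 1 Y, ∀ b ∈ Icc 1 Y, ∀ b' ∈ Icc 1 Y, p a b → p a b' → b = b') :
    ∑ a ∈ Icc 1 Y, ∑ b ∈ Icc 1 Y, (if p a b then 1 / (2 * (a : ℝ) ^ 2) else 0) ≤ 1 := by
  have h1 : ∀ a ∈ Icc 1 Y, ∑ b ∈ Icc 1 Y, (if p a b then 1 / (2 * (a : ℝ) ^ 2) else 0) ≤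
      (1 / 2) * (1 / (a : ℝ) ^ 2) := by
    intro a ha
    rw [← Finset.sum_filter, Finset.sum_const, nsmul_eq_mul]
    have h2 : ((Icc 1 Y).filter (fun b => p a b)).card ≤ 1 := by
      rw [Finset.card_le_one]
      intro b hb b' hb'
      exact hp a ha b (Finset.mem_filter.mp hb).1 b' (Finset.mem_filter.mp hb').1
        (Finset.mem_filter.mp hb).2 (Finset.mem_filter.mp hb').2
    have h3 : (((Icc 1 Y).filter (fun b => p a b)).card : ℝ) ≤ 1 := by exact_mod_cast h2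
    have h4 : (0 : ℝ) ≤ 1 / (2 * (a : ℝ) ^ 2) := by positivity
    calc _ ≤ 1 * (1 / (2 * (a : ℝ) ^ 2)) := by gcongr
      _ = _ := by ring
  refine (Finset.sum_le_sum h1).trans ?_
  rw [← Finset.mul_sum]
  have := sum_sq_le_two Y
  linarith

lemma G_le {P Y d : ℕ} (hP : 0 < P) (h5 : 5 ∣ P) (hd : 0 < d) :
    G P Y d ≤ 2 + 2 * (H Y * H Y / d) := by
  have hb : ∀ y ∈ Icc 1 Y, ∀ k ∈ Icc 1 Y,
      (if d ∣ M P y k then (1 / y : ℝ) * (1 / k) else 0) ≤
      (if (d ∣ M P y k ∧ k ≤ d) then 1 / (2 * (y : ℝ) ^ 2) else 0) +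
      (if (d ∣ M P y k ∧ y ≤ d) then 1 / (2 * (k : ℝ) ^ 2) else 0) +
      (if (d ∣ M P y k ∧ d < y) then (1 / y : ℝ) * (1 / k) else 0) +
      (if (d ∣ M P y k ∧ d < k) then (1 / y : ℝ) * (1 / k) else 0) := by
    intro y hy k hk
    have hy1 : (1 : ℝ) ≤ y := by exact_mod_cast (Finset.mem_Icc.mp hy).1
    have hk1 : (1 : ℝ) ≤ k := by exact_mod_cast (Finset.mem_Icc.mp hk).1
    have e1 : (0 : ℝ) ≤ 1 / (2 * (y : ℝ) ^ 2) := by positivity
    have e2 : (0 : ℝ) ≤ 1 / (2 * (k : ℝ) ^ 2) := by positivity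
    have e3 : (0 : ℝ) ≤ (1 / y : ℝ) * (1 / k) := by positivity
    have e4 : (1 / y : ℝ) * (1 / k) ≤ 1 / (2 * (y : ℝ) ^ 2) + 1 / (2 * (k : ℝ) ^ 2) := by
      have e5 : 1 / (2 * (y : ℝ) ^ 2) + 1 / (2 * (k : ℝ) ^ 2) - (1 / y : ℝ) * (1 / k) =
          (1 / 2) * ((1 / y : ℝ) - 1 / k) ^ 2 := by
        field_simp
        ring
      have e6 : 0 ≤ (1 / 2) * ((1 / y : ℝ) - 1 / k) ^ 2 := by positivity
      linarith
    by_cases hdv : d ∣ M P y k
    · rcases Nat.lt_or_ge d y with h1 | h1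
      · rcases Nat.lt_or_ge d k with h2 | h2
        · simp only [hdv, true_and, h1, h2, if_true, not_le.mpr h1, not_le.mpr h2, if_false]
          linarith
        · simp only [hdv, true_and, h1, h2, if_true, not_le.mpr h1, not_lt.mpr h2, if_false]
          linarith
      · rcases Nat.lt_or_ge d k with h2 | h2
        · simp only [hdv, true_and, h1, h2, if_true, not_lt.mpr h1, not_le.mpr h2, if_false]
          linarith
        · simp only [hdv, true_and, h1, h2, if_true, not_lt.mpr h1, not_lt.mpr h2, if_false]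
          linarith
    · simp only [hdv, false_and, if_false]
      norm_num
  unfold G
  refine (Finset.sum_le_sum fun y hy => Finset.sum_le_sum fun k hk => hb y hy k hk).trans ?_
  simp_rw [Finset.sum_add_distrib]
  have s1 := sum_small_le (Y := Y) (fun y k => d ∣ M P y k ∧ k ≤ d) (by
    intro y hy k hk k' hk' h h'
    have hy1 := (Finset.mem_Icc.mp hy).1
    have hk1 := (Finset.mem_Icc.mp hk).1
    have hk1' := (Finset.mem_Icc.mp hk').1
    exact eq_of_mod hk1 h.2 hk1' h'.2 (c4 hP hy1 hk1 hy1 hk1' h.1 h'.1 rfl))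
  have s2 := sum_small_le (Y := Y) (fun k y => d ∣ M P y k ∧ y ≤ d) (by
    intro k hk y hy y' hy' h h'
    have hy1 := (Finset.mem_Icc.mp hy).1
    have hk1 := (Finset.mem_Icc.mp hk).1
    have hy1' := (Finset.mem_Icc.mp hy').1
    exact eq_of_mod hy1 h.2 hy1' h'.2 (c2 hP h5 hy1 hk1 hy1' hk1 h.1 h'.1 rfl))
  rw [Finset.sum_comm] at s2
  have hH := H_nonneg Y
  have s3 : ∑ y ∈ Icc 1 Y, ∑ k ∈ Icc 1 Y,
      (if (d ∣ M P y k ∧ d < y) then (1 / y : ℝ) * (1 / k) else 0) ≤ H Y * H Y / d := by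
    rw [Finset.sum_comm]
    have h1 : ∀ k ∈ Icc 1 Y, ∑ y ∈ Icc 1 Y,
        (if (d ∣ M P y k ∧ d < y) then (1 / y : ℝ) * (1 / k) else 0) ≤ (1 / k) * (H Y / d) := by
      intro k hk
      have hk1 := (Finset.mem_Icc.mp hk).1
      rw [← Finset.sum_filter, ← Finset.sum_mul, mul_comm]
      gcongr
      refine ap_big hd _ ?_ ?_
      · intro y hy
        obtain ⟨h1, h2, h3⟩ := Finset.mem_filter.mp hy
        exact ⟨h3, (Finset.mem_Icc.mp h1).2⟩
      · intro y hy y' hy'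
        obtain ⟨h1, h2, h3⟩ := Finset.mem_filter.mp hy
        obtain ⟨h1', h2', h3'⟩ := Finset.mem_filter.mp hy'
        exact c2 hP h5 (Finset.mem_Icc.mp h1).1 hk1 (Finset.mem_Icc.mp h1').1 hk1 h2 h2' rfl
    refine (Finset.sum_le_sum h1).trans ?_
    rw [← Finset.sum_mul]
    have : ∑ k ∈ Icc 1 Y, (1 / k : ℝ) = H Y := rfl
    rw [this, mul_div_assoc]
  have s4 : ∑ y ∈ Icc 1 Y, ∑ k ∈ Icc 1 Y,
      (if (d ∣ M P y k ∧ d < k) then (1 / y : ℝ) * (1 / k) else 0) ≤ H Y * H Y / d := by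
    have h1 : ∀ y ∈ Icc 1 Y, ∑ k ∈ Icc 1 Y,
        (if (d ∣ M P y k ∧ d < k) then (1 / y : ℝ) * (1 / k) else 0) ≤ (1 / y) * (H Y / d) := by
      intro y hy
      have hy1 := (Finset.mem_Icc.mp hy).1
      rw [← Finset.sum_filter, ← Finset.mul_sum]
      gcongr
      refine ap_big hd _ ?_ ?_
      · intro k hk
        obtain ⟨h1, h2, h3⟩ := Finset.mem_filter.mp hk
        exact ⟨h3, (Finset.mem_Icc.mp h1).2⟩
      · intro k hk k' hk'
        obtain ⟨h1, h2, h3⟩ := Finset.mem_filter.mp hk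
        obtain ⟨h1', h2', h3'⟩ := Finset.mem_filter.mp hk'
        exact c4 hP hy1 (Finset.mem_Icc.mp h1).1 hy1 (Finset.mem_Icc.mp h1').1 h2 h2' rfl
    refine (Finset.sum_le_sum h1).trans ?_
    rw [← Finset.sum_mul]
    have : ∑ k ∈ Icc 1 Y, (1 / k : ℝ) = H Y := rfl
    rw [this, mul_div_assoc]
  linarith

/-- the two divisor sums -/
lemma Sc_le {P Y N : ℕ} (hP : 0 < P) (hN : ∀ y ∈ Icc 1 Y, ∀ k ∈ Icc 1 Y, M P y k ≤ N)
    (D : Finset ℕ) :
    ∑ y ∈ Icc 1 Y, ∑ k ∈ Icc 1 Y, ∑ d ∈ D,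
      (if d ∣ M P y k then (1 / (y : ℝ) ^ 2) * (1 / k) else 0) ≤
      20 * P * H Y + 4 * (H Y * H N) := by
  have h1 : ∀ y ∈ Icc 1 Y, ∑ k ∈ Icc 1 Y, ∑ d ∈ D,
      (if d ∣ M P y k then (1 / (y : ℝ) ^ 2) * (1 / k) else 0) ≤
      20 * P * (1 / y) + 2 * (H Y * H N) * (1 / (y : ℝ) ^ 2) := by
    intro y hy
    have hy1 := (Finset.mem_Icc.mp hy).1
    have hyr : (1 : ℝ) ≤ y := by exact_mod_cast hy1
    have h2 := hyp (A := 5 * P * y) (Y := Y) (N := N) (fun k => M P y k)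
      (fun k hk => by have := M_pos hP hy1 (Finset.mem_Icc.mp hk).1; omega)
      (fun k hk => by
        have := M_upper hP hy1 (Finset.mem_Icc.mp hk).1
        have e : 5 * P * y * k = 5 * (P * y * k) := by ring
        omega) (fun k hk => hN y hy k hk)
      (fun e k hk k' hk' h h' => c4 hP hy1 (Finset.mem_Icc.mp hk).1 hy1
        (Finset.mem_Icc.mp hk').1 h h' rfl) D
    have h3 : ∑ k ∈ Icc 1 Y, ∑ d ∈ D,
        (if d ∣ M P y k then (1 / (y : ℝ) ^ 2) * (1 / k) else 0) =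
        (1 / (y : ℝ) ^ 2) * ∑ k ∈ Icc 1 Y, (1 / k : ℝ) *
          ((D.filter (fun d => d ∣ M P y k)).card : ℝ) := by
      rw [Finset.mul_sum]
      refine Finset.sum_congr rfl fun k _ => ?_
      rw [← Finset.sum_filter, Finset.sum_const, nsmul_eq_mul]
      ring
    rw [h3]
    calc _ ≤ (1 / (y : ℝ) ^ 2) * (2 * (2 * ((5 * P * y : ℕ) : ℝ) + H Y * H N)) := by gcongr
      _ = _ := by
        push_cast
        field_simp
        ring
  refine (Finset.sum_le_sum h1).trans ?_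
  rw [Finset.sum_add_distrib, ← Finset.mul_sum, ← Finset.mul_sum]
  have h4 := sum_sq_le_two Y
  have h5 : ∑ y ∈ Icc 1 Y, (1 / y : ℝ) = H Y := rfl
  rw [h5]
  have h6 := mul_nonneg (H_nonneg Y) (H_nonneg N)
  nlinarith

lemma Sc_le' {P Y N : ℕ} (hP : 0 < P) (h5 : 5 ∣ P)
    (hN : ∀ y ∈ Icc 1 Y, ∀ k ∈ Icc 1 Y, M P y k ≤ N)
    (D : Finset ℕ) :
    ∑ k ∈ Icc 1 Y, ∑ y ∈ Icc 1 Y, ∑ d ∈ D,
      (if d ∣ M P y k then (1 / (k : ℝ) ^ 2) * (1 / y) else 0) ≤
      20 * P * H Y + 4 * (H Y * H N) := by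
  have h1 : ∀ k ∈ Icc 1 Y, ∑ y ∈ Icc 1 Y, ∑ d ∈ D,
      (if d ∣ M P y k then (1 / (k : ℝ) ^ 2) * (1 / y) else 0) ≤
      20 * P * (1 / k) + 2 * (H Y * H N) * (1 / (k : ℝ) ^ 2) := by
    intro k hk
    have hk1 := (Finset.mem_Icc.mp hk).1
    have hkr : (1 : ℝ) ≤ k := by exact_mod_cast hk1
    have h2 := hyp (A := 5 * P * k) (Y := Y) (N := N) (fun y => M P y k)
      (fun y hy => by have := M_pos hP (Finset.mem_Icc.mp hy).1 hk1; omega)
      (fun y hy => by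
        have := M_upper hP (Finset.mem_Icc.mp hy).1 hk1
        have e : 5 * P * k * y = 5 * (P * y * k) := by ring
        omega) (fun y hy => hN y hy k hk)
      (fun e y hy y' hy' h h' => c2 hP h5 (Finset.mem_Icc.mp hy).1 hk1
        (Finset.mem_Icc.mp hy').1 hk1 h h' rfl) D
    have h3 : ∑ y ∈ Icc 1 Y, ∑ d ∈ D,
        (if d ∣ M P y k then (1 / (k : ℝ) ^ 2) * (1 / y) else 0) =
        (1 / (k : ℝ) ^ 2) * ∑ y ∈ Icc 1 Y, (1 / y : ℝ) *
          ((D.filter (fun d => d ∣ M P y k)).card : ℝ) := by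
      rw [Finset.mul_sum]
      refine Finset.sum_congr rfl fun y _ => ?_
      rw [← Finset.sum_filter, Finset.sum_const, nsmul_eq_mul]
      ring
    rw [h3]
    calc _ ≤ (1 / (k : ℝ) ^ 2) * (2 * (2 * ((5 * P * k : ℕ) : ℝ) + H Y * H N)) := by gcongr
      _ = _ := by
        push_cast
        field_simp
        ring
  refine (Finset.sum_le_sum h1).trans ?_
  rw [Finset.sum_add_distrib, ← Finset.mul_sum, ← Finset.mul_sum]
  have h4 := sum_sq_le_two Y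
  have h5 : ∑ y ∈ Icc 1 Y, (1 / y : ℝ) = H Y := rfl
  rw [h5]
  have h6 := mul_nonneg (H_nonneg Y) (H_nonneg N)
  nlinarith

/-- the sum `Sb` -/
lemma Sb_le {P Y w : ℕ} (hP : 0 < P) (h5 : 5 ∣ P) (hw : 0 < w) :
    ∑ d ∈ Ioc w Y, (H Y / d) * G P Y d ≤ 2 * (H Y * H Y) + 2 * (H Y * H Y * H Y / w) := by
  have hH := H_nonneg Y
  have h1 : ∀ d ∈ Ioc w Y, (H Y / d) * G P Y d ≤
      2 * H Y * (1 / d) + 2 * (H Y * H Y * H Y) * (1 / (d : ℝ) ^ 2) := by
    intro d hd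
    have hd0 : 0 < d := by have := (Finset.mem_Ioc.mp hd).1; omega
    have hdr : (0 : ℝ) < d := by exact_mod_cast hd0
    calc (H Y / d) * G P Y d ≤ (H Y / d) * (2 + 2 * (H Y * H Y / d)) := by
          gcongr
          exact G_le hP h5 hd0
      _ = _ := by field_simp
  refine (Finset.sum_le_sum h1).trans ?_
  rw [Finset.sum_add_distrib, ← Finset.mul_sum, ← Finset.mul_sum]
  have h2 : ∑ d ∈ Ioc w Y, (1 / d : ℝ) ≤ H Y := by
    refine Finset.sum_le_sum_of_subset_of_nonneg ?_ fun _ _ _ => by positivity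
    intro d hd
    rw [Finset.mem_Ioc] at hd
    rw [Finset.mem_Icc]
    omega
  have h3 := sum_sq_tail (Y := Y) hw
  have h4 : 2 * H Y * ∑ d ∈ Ioc w Y, (1 / d : ℝ) ≤ 2 * H Y * H Y := by gcongr
  have h5 : 2 * (H Y * H Y * H Y) * ∑ d ∈ Ioc w Y, (1 / (d : ℝ) ^ 2) ≤
      2 * (H Y * H Y * H Y) * (1 / w) := by gcongr
  have h6 : 2 * (H Y * H Y * H Y) * (1 / (w : ℝ)) = 2 * (H Y * H Y * H Y / w) := by ring
  linarith

/-- the sum `Sa` for one `d` -/
lemma Sa_one {P Y d : ℕ} (hP : 0 < P) (hd : 1 < d) (hdY : d ≤ Y) :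
    ∑ y ∈ Icc 1 Y, ∑ k ∈ Icc 1 Y,
      (if d ∣ M P y k then (1 / y : ℝ) * (1 / k) * (1 / (k % d : ℕ)) else 0) ≤
    (∑ y ∈ Icc 1 Y, ∑ k ∈ Icc 1 Y,
      (if d ∣ M P y k then (1 / (k : ℝ) ^ 2) * (1 / y) else 0)) + (H Y / d) * G P Y d := by
  unfold G
  rw [Finset.mul_sum, ← Finset.sum_add_distrib]
  refine Finset.sum_le_sum fun y hy => ?_
  have hy1 := (Finset.mem_Icc.mp hy).1
  have hH := H_nonneg Y
  have hdr : (0 : ℝ) < d := by exact_mod_cast (by omega : 0 < d)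
  have h1 : ∀ k ∈ Icc 1 Y, (if d ∣ M P y k then (1 / y : ℝ) * (1 / k) * (1 / (k % d : ℕ)) else 0) ≤
      (if d ∣ M P y k then (1 / (k : ℝ) ^ 2) * (1 / y) else 0) +
      (if (d ∣ M P y k ∧ d < k) then (1 / y : ℝ) * (1 / k) * (1 / (k % d : ℕ)) else 0) := by
    intro k hk
    have hk1 := (Finset.mem_Icc.mp hk).1
    by_cases hdv : d ∣ M P y k
    · have h5 := c5 hP hy1 hk1 hd hdv
      rcases Nat.lt_or_ge d k with h2 | h2
      · simp only [hdv, true_and, h2, if_true]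
        have : (0 : ℝ) ≤ (1 / (k : ℝ) ^ 2) * (1 / y) := by positivity
        linarith
      · have h3 : k < d := by
          rcases Nat.lt_or_ge k d with h | h
          · exact h
          · have : k = d := le_antisymm h2 h
            rw [this, Nat.mod_self] at h5
            omega
        simp only [hdv, true_and, not_lt.mpr h2, if_true, if_false, Nat.mod_eq_of_lt h3, add_zero]
        apply le_of_eq
        ring
    · simp [hdv]
  refine (Finset.sum_le_sum h1).trans ?_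
  rw [Finset.sum_add_distrib]
  gcongr
  rw [← Finset.sum_filter]
  rcases Finset.eq_empty_or_nonempty ((Icc 1 Y).filter (fun k => d ∣ M P y k ∧ d < k)) with
    h0 | ⟨k0, hk0⟩
  · rw [h0, Finset.sum_empty]
    refine mul_nonneg (by positivity) (Finset.sum_nonneg fun _ _ => ?_)
    split_ifs <;> positivity
  · obtain ⟨hk1, hk2, hk3⟩ := Finset.mem_filter.mp hk0
    have hk01 := (Finset.mem_Icc.mp hk1).1
    set κ := k0 % d with hκ
    have hκ1 : 1 ≤ κ := c5 hP hy1 hk01 hd hk2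
    have hκd : κ < d := Nat.mod_lt _ (by omega)
    have hκr : (1 : ℝ) ≤ κ := by exact_mod_cast hκ1
    have hdκ : d ∣ M P y κ := c3 hP hy1 hk01 hy1 hκ1 hk2 rfl (by rw [hκ, Nat.mod_mod])
    have h2 : ∀ k ∈ (Icc 1 Y).filter (fun k => d ∣ M P y k ∧ d < k),
        (1 / y : ℝ) * (1 / k) * (1 / (k % d : ℕ)) = (1 / y : ℝ) * (1 / κ) * (1 / k) := by
      intro k hk
      obtain ⟨h3, h4, h5⟩ := Finset.mem_filter.mp hk
      rw [c4 hP hy1 (Finset.mem_Icc.mp h3).1 hy1 hk01 h4 hk2 rfl]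
      ring
    rw [Finset.sum_congr rfl h2, ← Finset.mul_sum]
    have h6 := ap_big (d := d) (Y := Y) (by omega)
      ((Icc 1 Y).filter (fun k => d ∣ M P y k ∧ d < k)) (by
        intro k hk
        obtain ⟨h1, h2, h3⟩ := Finset.mem_filter.mp hk
        exact ⟨h3, (Finset.mem_Icc.mp h1).2⟩) (by
        intro k hk k' hk'
        obtain ⟨h1, h2, h3⟩ := Finset.mem_filter.mp hk
        obtain ⟨h1', h2', h3'⟩ := Finset.mem_filter.mp hk'
        exact c4 hP hy1 (Finset.mem_Icc.mp h1).1 hy1 (Finset.mem_Icc.mp h1').1 h2 h2' rfl)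
    have h7 : (1 / y : ℝ) * (1 / κ) ≤
        ∑ k ∈ Icc 1 Y, (if d ∣ M P y k then (1 / y : ℝ) * (1 / k) else 0) := by
      have h8 := Finset.single_le_sum
        (f := fun k : ℕ => (if d ∣ M P y k then (1 / y : ℝ) * (1 / k) else 0))
        (s := Icc 1 Y) (fun k _ => by split_ifs <;> positivity)
        (Finset.mem_Icc.mpr ⟨hκ1, hκd.le.trans hdY⟩ : κ ∈ Icc 1 Y)
      simp only [hdκ, if_true] at h8
      exact h8
    calc (1 / y : ℝ) * (1 / κ) * ∑ k ∈ (Icc 1 Y).filter (fun k => d ∣ M P y k ∧ d < k), (1 / k : ℝ)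
        ≤ (∑ k ∈ Icc 1 Y, (if d ∣ M P y k then (1 / y : ℝ) * (1 / k) else 0)) * (H Y / d) := by
          gcongr
      _ = _ := mul_comm _ _

end Pool.Agent.Lib.MP_9aa437_nt.Quad
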