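import Pool.Agent.Lib.MP_9aa437_nt.Quad.Corr

set_option autoImplicit false

namespace Pool.Agent.Lib.MP_9aa437_nt.Quad

open Finset

/-- the pairs `(y, k)` in use -/
def V (Y : ℕ) : Finset (ℕ × ℕ) := Icc 1 Y ×ˢ Icc 1 Y

lemma mem_V {Y : ℕ} {v : ℕ × ℕ} (hv : v ∈ V Y) : (1 ≤ v.1 ∧ v.1 ≤ Y) ∧ (1 ≤ v.2 ∧ v.2 ≤ Y) := by
  rw [V, Finset.mem_product, Finset.mem_Icc, Finset.mem_Icc] at hv
  exact hv

/-- ordered correlations -/
noncomputable def F (P w Y : ℕ) (v v' : ℕ × ℕ) : ℝ :=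
  ∑ d ∈ Ioc w Y, if (d ∣ M P v.1 v.2 ∧ (v.1 % d = v'.1 % d ∧ v.2 % d = v'.2 % d ∧
    (v.1 < v'.1 ∨ (v.1 = v'.1 ∧ v.2 < v'.2)))) then
      ((d : ℝ) / (9 * P ^ 2) * ((1 / v.1) * (1 / v.2))) * ((1 / v'.1) * (1 / v'.2)) else 0

lemma F_nonneg (P w Y : ℕ) (v v' : ℕ × ℕ) : 0 ≤ F P w Y v v' :=
  Finset.sum_nonneg fun _ _ => by split_ifs <;> positivity

lemma dvd_abs_of_mod {g a b : ℕ} (h : a % g = b % g) (hab : a < b) : g ≤ b := by
  have h1 : g ∣ b - a := (Nat.modEq_iff_dvd' hab.le).mp h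
  have h2 := Nat.le_of_dvd (by omega) h1
  omega

lemma frac_le {P g : ℕ} {v v' : ℕ × ℕ} (hP : 0 < P) (h1 : 1 ≤ v.1) (h2 : 1 ≤ v.2)
    (h3 : 1 ≤ v'.1) (h4 : 1 ≤ v'.2) :
    (g : ℝ) / (M P v.1 v.2 * M P v'.1 v'.2) ≤
      ((g : ℝ) / (9 * P ^ 2) * ((1 / v.1) * (1 / v.2))) * ((1 / v'.1) * (1 / v'.2)) := by
  have hPr : (0 : ℝ) < P := by exact_mod_cast hP
  have e1 : (1 : ℝ) ≤ v.1 := by exact_mod_cast h1
  have e2 : (1 : ℝ) ≤ v.2 := by exact_mod_cast h2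
  have e3 : (1 : ℝ) ≤ v'.1 := by exact_mod_cast h3
  have e4 : (1 : ℝ) ≤ v'.2 := by exact_mod_cast h4
  have m1 : 3 * (P * v.1 * v.2 : ℝ) ≤ M P v.1 v.2 := by exact_mod_cast M_lower hP h1 h2
  have m2 : 3 * (P * v'.1 * v'.2 : ℝ) ≤ M P v'.1 v'.2 := by exact_mod_cast M_lower hP h3 h4
  calc (g : ℝ) / (M P v.1 v.2 * M P v'.1 v'.2) ≤
      (g : ℝ) / ((3 * (P * v.1 * v.2 : ℝ)) * (3 * (P * v'.1 * v'.2 : ℝ))) := by gcongr
    _ = _ := by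
      field_simp
      ring

lemma E_le {P w Y : ℕ} (hP : 0 < P) (hw : ∀ q : ℕ, q.Prime → q ≤ w → q ∣ P)
    {v v' : ℕ × ℕ} (hv : v ∈ V Y) (hv' : v' ∈ V Y) :
    E P v.1 v.2 v'.1 v'.2 ≤ (if v = v' then (1 / v.1 : ℝ) * (1 / v.2) else 0) +
      F P w Y v v' + F P w Y v' v := by
  obtain ⟨⟨a1, a2⟩, ⟨a3, a4⟩⟩ := mem_V hv
  obtain ⟨⟨b1, b2⟩, ⟨b3, b4⟩⟩ := mem_V hv'
  have hF := F_nonneg P w Y v v'
  have hF' := F_nonneg P w Y v' v
  have hPr : (1 : ℝ) ≤ P := by exact_mod_cast hP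
  have e1 : (1 : ℝ) ≤ v.1 := by exact_mod_cast a1
  have e2 : (1 : ℝ) ≤ v.2 := by exact_mod_cast a3
  have hD : (0 : ℝ) ≤ (if v = v' then (1 / v.1 : ℝ) * (1 / v.2) else 0) := by
    split_ifs <;> positivity
  unfold E
  split_ifs with hc heq heq
  · -- diagonal
    subst heq
    rw [Nat.gcd_self]
    have m1 : 3 * (P * v.1 * v.2 : ℝ) ≤ M P v.1 v.2 := by exact_mod_cast M_lower hP a1 a3
    have hMr : (0 : ℝ) < M P v.1 v.2 := lt_of_lt_of_le (by positivity) m1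
    have h1 : (M P v.1 v.2 : ℝ) / (M P v.1 v.2 * M P v.1 v.2) ≤ (1 / v.1 : ℝ) * (1 / v.2) := by
      have e3 : (M P v.1 v.2 : ℝ) / (M P v.1 v.2 * M P v.1 v.2) = 1 / M P v.1 v.2 := by
        field_simp
      have e4 : (1 / v.1 : ℝ) * (1 / v.2) = 1 / (v.1 * v.2) := by field_simp
      rw [e3, e4]
      refine one_div_le_one_div_of_le (by positivity) ?_
      have : (v.1 : ℝ) * v.2 ≤ P * (v.1 * v.2) := le_mul_of_one_le_left (by positivity) hPr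
      have h0 : (0 : ℝ) ≤ P * (v.1 * v.2) := by positivity
      nlinarith
    linarith
  · -- off the diagonal
    obtain ⟨hg1, hgy, hgk⟩ := hc
    set g := Nat.gcd (M P v.1 v.2) (M P v'.1 v'.2) with hg
    have hgM : g ∣ M P v.1 v.2 := Nat.gcd_dvd_left _ _
    have hgM' : g ∣ M P v'.1 v'.2 := Nat.gcd_dvd_right _ _
    have hwg := gcd_large hP hw a1 a3 hg1 hgM
    have key : ∀ u u' : ℕ × ℕ, (1 ≤ u.1 ∧ 1 ≤ u.2) → (1 ≤ u'.1 ∧ 1 ≤ u'.2 ∧ u'.1 ≤ Y ∧ u'.2 ≤ Y) →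
        g ∣ M P u.1 u.2 → u.1 % g = u'.1 % g → u.2 % g = u'.2 % g →
        (u.1 < u'.1 ∨ (u.1 = u'.1 ∧ u.2 < u'.2)) →
        (g : ℝ) / (M P u.1 u.2 * M P u'.1 u'.2) ≤ F P w Y u u' := by
      intro u u' hu hu' hgu h1 h2 h3
      have hgY : g ∈ Ioc w Y := by
        rw [Finset.mem_Ioc]
        refine ⟨hwg, ?_⟩
        rcases h3 with h3 | h3
        · exact (dvd_abs_of_mod h1 h3).trans hu'.2.2.1
        · exact (dvd_abs_of_mod h2 h3.2).trans hu'.2.2.2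
      have h4 := Finset.single_le_sum (f := fun d : ℕ =>
        if (d ∣ M P u.1 u.2 ∧ (u.1 % d = u'.1 % d ∧ u.2 % d = u'.2 % d ∧
          (u.1 < u'.1 ∨ (u.1 = u'.1 ∧ u.2 < u'.2)))) then
        ((d : ℝ) / (9 * P ^ 2) * ((1 / u.1) * (1 / u.2))) * ((1 / u'.1) * (1 / u'.2)) else 0)
        (s := Ioc w Y) (fun d _ => by split_ifs <;> positivity) hgY
      beta_reduce at h4
      rw [if_pos (⟨hgu, h1, h2, h3⟩ : g ∣ M P u.1 u.2 ∧ (u.1 % g = u'.1 % g ∧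
        u.2 % g = u'.2 % g ∧ (u.1 < u'.1 ∨ (u.1 = u'.1 ∧ u.2 < u'.2))))] at h4
      exact (frac_le hP hu.1 hu.2 hu'.1 hu'.2.1).trans h4
    rcases lt_trichotomy v.1 v'.1 with h | h | h
    · have := key v v' ⟨a1, a3⟩ ⟨b1, b3, b2, b4⟩ hgM hgy hgk (Or.inl h)
      linarith
    · rcases lt_trichotomy v.2 v'.2 with h' | h' | h'
      · have := key v v' ⟨a1, a3⟩ ⟨b1, b3, b2, b4⟩ hgM hgy hgk (Or.inr ⟨h, h'⟩)
        linarith
      · exact absurd (Prod.ext h h') heq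
      · have := key v' v ⟨b1, b3⟩ ⟨a1, a3, a2, a4⟩ hgM' hgy.symm hgk.symm (Or.inr ⟨h.symm, h'⟩)
        rw [mul_comm] at this
        linarith
    · have := key v' v ⟨b1, b3⟩ ⟨a1, a3, a2, a4⟩ hgM' hgy.symm hgk.symm (Or.inl h)
      rw [mul_comm] at this
      linarith
  · have : (0 : ℝ) ≤ (1 / v.1 : ℝ) * (1 / v.2) := by positivity
    linarith
  · linarith

lemma inner_le {Y d : ℕ} {v : ℕ × ℕ} (hd : 0 < d) (hv1 : 1 ≤ v.1) (hv2 : 1 ≤ v.2 % d) :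
    ∑ v' ∈ V Y, (if (v.1 % d = v'.1 % d ∧ v.2 % d = v'.2 % d ∧
      (v.1 < v'.1 ∨ (v.1 = v'.1 ∧ v.2 < v'.2))) then (1 / v'.1 : ℝ) * (1 / v'.2) else 0) ≤
    (H Y / d) * (1 / (v.2 % d : ℕ) + H Y / d) + (1 / v.1) * (H Y / d) := by
  have hH := H_nonneg Y
  have hdr : (0 : ℝ) < d := by exact_mod_cast hd
  rw [V, Finset.sum_product]
  have h1 : ∀ y' ∈ Icc 1 Y, ∀ k' ∈ Icc 1 Y,
      (if (v.1 % d = y' % d ∧ v.2 % d = k' % d ∧
        (v.1 < y' ∨ (v.1 = y' ∧ v.2 < k'))) then (1 / y' : ℝ) * (1 / k') else 0) ≤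
      (if (v.1 < y' ∧ v.1 % d = y' % d) then (1 / y' : ℝ) else 0) *
        (if v.2 % d = k' % d then (1 / k' : ℝ) else 0) +
      (if v.1 = y' then (if (v.2 < k' ∧ v.2 % d = k' % d) then (1 / v.1 : ℝ) * (1 / k') else 0)
        else 0) := by
    intro y' hy' k' hk'
    have e0 : (0 : ℝ) ≤ (if (v.1 < y' ∧ v.1 % d = y' % d) then (1 / y' : ℝ) else 0) *
        (if v.2 % d = k' % d then (1 / k' : ℝ) else 0) := by
      refine mul_nonneg ?_ ?_ <;> split_ifs <;> positivity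
    have e1 : (0 : ℝ) ≤ (if v.1 = y' then
        (if (v.2 < k' ∧ v.2 % d = k' % d) then (1 / v.1 : ℝ) * (1 / k') else 0) else 0) := by
      split_ifs <;> positivity
    by_cases hc : (v.1 % d = y' % d ∧ v.2 % d = k' % d ∧
        (v.1 < y' ∨ (v.1 = y' ∧ v.2 < k')))
    · rw [if_pos hc]
      obtain ⟨h2, h3, h4⟩ := hc
      rcases h4 with h4 | ⟨h4, h5⟩
      · rw [if_pos ⟨h4, h2⟩, if_pos h3]
        linarith
      · have e5 : (if v.1 = y' then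
            (if (v.2 < k' ∧ v.2 % d = k' % d) then (1 / v.1 : ℝ) * (1 / k') else 0) else 0) =
            (1 / y' : ℝ) * (1 / k') := by
          rw [if_pos h4, if_pos (⟨h5, h3⟩ : v.2 < k' ∧ v.2 % d = k' % d), h4]
        rw [e5]
        linarith
    · rw [if_neg hc]
      positivity
  refine (Finset.sum_le_sum fun y' hy' => Finset.sum_le_sum fun k' hk' => h1 y' hy' k' hk').trans ?_
  simp_rw [Finset.sum_add_distrib, ← Finset.mul_sum]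
  rw [← Finset.sum_mul]
  have s1 : ∑ y' ∈ Icc 1 Y, (if (v.1 < y' ∧ v.1 % d = y' % d) then (1 / y' : ℝ) else 0) ≤
      H Y / d := by
    rw [← Finset.sum_filter]
    refine ap_tail (a := v.1) hd _ fun y' hy' => ?_
    obtain ⟨h2, h3, h4⟩ := Finset.mem_filter.mp hy'
    exact ⟨h3, (Finset.mem_Icc.mp h2).2, h4.symm⟩
  have s2 : ∑ k' ∈ Icc 1 Y, (if v.2 % d = k' % d then (1 / k' : ℝ) else 0) ≤
      1 / (v.2 % d : ℕ) + H Y / d := by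
    rw [← Finset.sum_filter]
    refine ap_sum hd (by positivity) _ ?_ ?_
    · intro k' hk'
      obtain ⟨h2, h3⟩ := Finset.mem_filter.mp hk'
      refine ⟨(Finset.mem_Icc.mp h2).2, ?_⟩
      have h4 : v.2 % d ≤ k' := by rw [h3]; exact Nat.mod_le _ _
      have h5 : ((v.2 % d : ℕ) : ℝ) ≤ k' := by exact_mod_cast h4
      have h6 : (0 : ℝ) < ((v.2 % d : ℕ) : ℝ) := by exact_mod_cast hv2
      exact one_div_le_one_div_of_le h6 h5
    · intro k' hk' k'' hk''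
      exact (Finset.mem_filter.mp hk').2.symm.trans (Finset.mem_filter.mp hk'').2
  have s3 : ∑ y' ∈ Icc 1 Y, ∑ k' ∈ Icc 1 Y,
      (if v.1 = y' then (if (v.2 < k' ∧ v.2 % d = k' % d) then (1 / v.1 : ℝ) * (1 / k') else 0)
        else 0) ≤ (1 / v.1) * (H Y / d) := by
    rw [Finset.sum_comm]
    have h2 : ∀ k' ∈ Icc 1 Y, ∑ y' ∈ Icc 1 Y,
        (if v.1 = y' then (if (v.2 < k' ∧ v.2 % d = k' % d) then (1 / v.1 : ℝ) * (1 / k') else 0)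
        else 0) ≤ (1 / v.1 : ℝ) * (if (v.2 < k' ∧ v.2 % d = k' % d) then (1 / k' : ℝ) else 0) := by
      intro k' _
      rw [Finset.sum_ite_eq]
      split_ifs <;> first | positivity | simp
    refine (Finset.sum_le_sum h2).trans ?_
    rw [← Finset.mul_sum, ← Finset.sum_filter]
    gcongr
    refine ap_tail (a := v.2) hd _ fun k' hk' => ?_
    obtain ⟨h2, h3, h4⟩ := Finset.mem_filter.mp hk'
    exact ⟨h3, (Finset.mem_Icc.mp h2).2, h4.symm⟩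
  have s4 : (0 : ℝ) ≤ ∑ k' ∈ Icc 1 Y, (if v.2 % d = k' % d then (1 / k' : ℝ) else 0) :=
    Finset.sum_nonneg fun _ _ => by split_ifs <;> positivity
  have s5 : (∑ y' ∈ Icc 1 Y, (if (v.1 < y' ∧ v.1 % d = y' % d) then (1 / y' : ℝ) else 0)) *
      ∑ k' ∈ Icc 1 Y, (if v.2 % d = k' % d then (1 / k' : ℝ) else 0) ≤
      (H Y / d) * (1 / (v.2 % d : ℕ) + H Y / d) := by
    calc _ ≤ (H Y / d) * ∑ k' ∈ Icc 1 Y, (if v.2 % d = k' % d then (1 / k' : ℝ) else 0) := by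
          gcongr
      _ ≤ _ := by gcongr
  linarith

lemma F_sum {P w Y : ℕ} (hP : 0 < P) (hw1 : 1 ≤ w) {v : ℕ × ℕ} (hv : v ∈ V Y) :
    ∑ v' ∈ V Y, F P w Y v v' ≤ (H Y / (9 * P ^ 2)) * ∑ d ∈ Ioc w Y,
      ((if d ∣ M P v.1 v.2 then (1 / v.1 : ℝ) * (1 / v.2) * (1 / (v.2 % d : ℕ)) else 0) +
       (H Y / d) * (if d ∣ M P v.1 v.2 then (1 / v.1 : ℝ) * (1 / v.2) else 0) +
       (if d ∣ M P v.1 v.2 then (1 / (v.1 : ℝ) ^ 2) * (1 / v.2) else 0)) := by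
  obtain ⟨⟨a1, a2⟩, ⟨a3, a4⟩⟩ := mem_V hv
  have e1 : (1 : ℝ) ≤ v.1 := by exact_mod_cast a1
  have e2 : (1 : ℝ) ≤ v.2 := by exact_mod_cast a3
  have hPr : (0 : ℝ) < P := by exact_mod_cast hP
  unfold F
  rw [Finset.sum_comm, Finset.mul_sum]
  refine Finset.sum_le_sum fun d hd => ?_
  have hd1 : 1 < d := by have := (Finset.mem_Ioc.mp hd).1; omega
  have hdr : (0 : ℝ) < d := by exact_mod_cast (by omega : 0 < d)
  by_cases hdv : d ∣ M P v.1 v.2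
  · simp only [hdv, true_and, if_true]
    have h1 := inner_le (Y := Y) (v := v) (d := d) (by omega) a1 (c5 hP a1 a3 hd1 hdv)
    have h2 : ∑ v' ∈ V Y, (if (v.1 % d = v'.1 % d ∧ v.2 % d = v'.2 % d ∧
        (v.1 < v'.1 ∨ (v.1 = v'.1 ∧ v.2 < v'.2))) then
        ((d : ℝ) / (9 * P ^ 2) * ((1 / v.1) * (1 / v.2))) * ((1 / v'.1) * (1 / v'.2)) else 0) =
        ((d : ℝ) / (9 * P ^ 2) * ((1 / v.1) * (1 / v.2))) *
        ∑ v' ∈ V Y, (if (v.1 % d = v'.1 % d ∧ v.2 % d = v'.2 % d ∧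
        (v.1 < v'.1 ∨ (v.1 = v'.1 ∧ v.2 < v'.2))) then (1 / v'.1 : ℝ) * (1 / v'.2) else 0) := by
      rw [Finset.mul_sum]
      refine Finset.sum_congr rfl fun v' _ => ?_
      split_ifs <;> simp
    rw [h2]
    have hvd : (0 : ℝ) < ((v.2 % d : ℕ) : ℝ) := by exact_mod_cast c5 hP a1 a3 hd1 hdv
    calc _ ≤ ((d : ℝ) / (9 * P ^ 2) * ((1 / v.1) * (1 / v.2))) *
        ((H Y / d) * (1 / (v.2 % d : ℕ) + H Y / d) + (1 / v.1) * (H Y / d)) := by gcongr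
      _ = _ := by
        field_simp
  · simp [hdv]

lemma corr_sum {P w Y N : ℕ} (hP : 0 < P) (h5 : 5 ∣ P) (hw1 : 1 ≤ w)
    (hw : ∀ q : ℕ, q.Prime → q ≤ w → q ∣ P)
    (hN : ∀ y ∈ Icc 1 Y, ∀ k ∈ Icc 1 Y, M P y k ≤ N) :
    ∑ v ∈ V Y, ∑ v' ∈ V Y, E P v.1 v.2 v'.1 v'.2 ≤ H Y * H Y +
      2 * ((H Y / (9 * P ^ 2)) * (2 * (20 * P * H Y + 4 * (H Y * H N)) +
        2 * (2 * (H Y * H Y) + 2 * (H Y * H Y * H Y / w)))) := by
  have hH := H_nonneg Y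
  have hPr : (0 : ℝ) < P := by exact_mod_cast hP
  have h1 : ∑ v ∈ V Y, ∑ v' ∈ V Y, E P v.1 v.2 v'.1 v'.2 ≤
      ∑ v ∈ V Y, ∑ v' ∈ V Y, ((if v = v' then (1 / v.1 : ℝ) * (1 / v.2) else 0) +
      F P w Y v v' + F P w Y v' v) :=
    Finset.sum_le_sum fun v hv => Finset.sum_le_sum fun v' hv' => E_le hP hw hv hv'
  refine h1.trans ?_
  simp_rw [Finset.sum_add_distrib]
  have h2 : ∑ v ∈ V Y, ∑ v' ∈ V Y, (if v = v' then (1 / v.1 : ℝ) * (1 / v.2) else 0) =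
      H Y * H Y := by
    have : ∀ v ∈ V Y, ∑ v' ∈ V Y, (if v = v' then (1 / v.1 : ℝ) * (1 / v.2) else 0) =
        (1 / v.1 : ℝ) * (1 / v.2) := by
      intro v hv
      rw [Finset.sum_ite_eq, if_pos hv]
    rw [Finset.sum_congr rfl this, V, Finset.sum_product, H, Finset.sum_mul_sum]
  have h3 : ∑ v ∈ V Y, ∑ v' ∈ V Y, F P w Y v' v = ∑ v ∈ V Y, ∑ v' ∈ V Y, F P w Y v v' :=
    Finset.sum_comm
  have h4 : ∑ v ∈ V Y, ∑ v' ∈ V Y, F P w Y v v' ≤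
      (H Y / (9 * P ^ 2)) * (2 * (20 * P * H Y + 4 * (H Y * H N)) +
        2 * (2 * (H Y * H Y) + 2 * (H Y * H Y * H Y / w))) := by
    refine (Finset.sum_le_sum fun v hv => F_sum hP hw1 hv).trans ?_
    rw [← Finset.mul_sum]
    gcongr
    simp_rw [Finset.sum_add_distrib]
    have sb : ∑ v ∈ V Y, ∑ d ∈ Ioc w Y,
        (H Y / d) * (if d ∣ M P v.1 v.2 then (1 / v.1 : ℝ) * (1 / v.2) else 0) ≤
        2 * (H Y * H Y) + 2 * (H Y * H Y * H Y / w) := by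
      rw [Finset.sum_comm]
      refine le_trans (le_of_eq ?_) (Sb_le hP h5 hw1)
      refine Finset.sum_congr rfl fun d _ => ?_
      rw [← Finset.mul_sum, V, Finset.sum_product]
      rfl
    have sc : ∑ v ∈ V Y, ∑ d ∈ Ioc w Y,
        (if d ∣ M P v.1 v.2 then (1 / (v.1 : ℝ) ^ 2) * (1 / v.2) else 0) ≤
        20 * P * H Y + 4 * (H Y * H N) := by
      rw [V, Finset.sum_product]
      exact Sc_le hP hN _
    have sa : ∑ v ∈ V Y, ∑ d ∈ Ioc w Y,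
        (if d ∣ M P v.1 v.2 then (1 / v.1 : ℝ) * (1 / v.2) * (1 / (v.2 % d : ℕ)) else 0) ≤
        (20 * P * H Y + 4 * (H Y * H N)) + (2 * (H Y * H Y) + 2 * (H Y * H Y * H Y / w)) := by
      rw [Finset.sum_comm]
      have h5' : ∀ d ∈ Ioc w Y, ∑ v ∈ V Y,
          (if d ∣ M P v.1 v.2 then (1 / v.1 : ℝ) * (1 / v.2) * (1 / (v.2 % d : ℕ)) else 0) ≤
          (∑ y ∈ Icc 1 Y, ∑ k ∈ Icc 1 Y,
            (if d ∣ M P y k then (1 / (k : ℝ) ^ 2) * (1 / y) else 0)) +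
            (H Y / d) * G P Y d := by
        intro d hd
        rw [Finset.mem_Ioc] at hd
        rw [V, Finset.sum_product]
        exact Sa_one hP (by omega) hd.2
      refine (Finset.sum_le_sum h5').trans ?_
      rw [Finset.sum_add_distrib]
      refine add_le_add ?_ (Sb_le hP h5 hw1)
      refine le_trans (le_of_eq ?_) (Sc_le' hP h5 hN (Ioc w Y))
      calc ∑ d ∈ Ioc w Y, ∑ y ∈ Icc 1 Y, ∑ k ∈ Icc 1 Y,
            (if d ∣ M P y k then (1 / (k : ℝ) ^ 2) * (1 / y) else 0)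
          = ∑ d ∈ Ioc w Y, ∑ k ∈ Icc 1 Y, ∑ y ∈ Icc 1 Y,
            (if d ∣ M P y k then (1 / (k : ℝ) ^ 2) * (1 / y) else 0) :=
            Finset.sum_congr rfl fun d _ => Finset.sum_comm
        _ = ∑ k ∈ Icc 1 Y, ∑ d ∈ Ioc w Y, ∑ y ∈ Icc 1 Y,
            (if d ∣ M P y k then (1 / (k : ℝ) ^ 2) * (1 / y) else 0) := Finset.sum_comm
        _ = _ := Finset.sum_congr rfl fun k _ => Finset.sum_comm
    linarith
  linarith

end Pool.Agent.Lib.MP_9aa437_nt.Quad
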