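import Pool.Agent.Lib.MP_9aa437_nt.BrunLower
import Pool.Agent.Lib.MP_9aa437_nt.Quad.Corr2
import Pool.Agent.Lib.MP_0da313_nt.MT.Mertens

set_option autoImplicit false

namespace Pool.Agent.Lib.MP_9aa437_nt.Quad

open Finset

lemma hit_class' {P t Z y k : ℕ} (hP : 0 < P) (ht : Nat.Coprime t (M P y k)) (hy : 0 < y)
    (hk : 0 < k) : ∃ s < M P y k, ∀ l, Hit P t Z y k l ↔ l % M P y k = s := by
  have hM := M_pos hP hy hk
  have : NeZero (M P y k) := ⟨by omega⟩
  have ht' := ZMod.coe_mul_inv_eq_one t ht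
  set m := M P y k with hm
  have hu : (5 * (y : ZMod m) - 1) * P * k = 1 := (dvd_iff hP hy hk).mp dvd_rfl
  set ti : ZMod m := (t : ZMod m)⁻¹
  set c : ZMod m := (-(y : ZMod m)) * (P * k * ti) - Z with hc
  refine ⟨c.val, ZMod.val_lt _, fun l => ?_⟩
  rw [hit_iff hy, ← hm]
  have h1 : l % m = c.val ↔ (l : ZMod m) = c := by
    rw [← ZMod.val_natCast]
    exact ⟨fun h => ZMod.val_injective _ h, fun h => by rw [h]⟩
  rw [h1]
  constructor
  · intro h
    rw [hc]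
    linear_combination (P * k * ti) * h - ((l : ZMod m) + Z) * hu -
      ((l : ZMod m) + Z) * (5 * (y : ZMod m) - 1) * P * k * ht'
  · intro h
    rw [h, hc]
    linear_combination (-(y : ZMod m)) * (5 * (y : ZMod m) - 1) * P * k * ht' -
      (y : ZMod m) * hu

lemma one_count' {P t Z y k : ℕ} (X : ℕ) (hP : 0 < P) (ht : Nat.Coprime t (M P y k)) (hy : 0 < y) (hk : 0 < k) :
    |(((Ioc 0 X).filter (fun l => Hit P t Z y k l)).card : ℝ) - X / M P y k| ≤ 1 := by
  obtain ⟨s, hs, h⟩ := hit_class' (Z := Z) hP ht hy hk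
  have hM := M_pos hP hy hk
  have e : (Ioc 0 X).filter (fun l => Hit P t Z y k l) =
      (Ioc 0 X).filter (fun l => l % M P y k = s) := Finset.filter_congr fun l _ => h l
  rw [e]
  exact count_class X (M P y k) s (by omega) hs

lemma two_count' {P t Z y k y' k' : ℕ} (X : ℕ) (hP : 0 < P) (ht : Nat.Coprime t (M P y k)) (ht' : Nat.Coprime t (M P y' k'))
    (hy : 0 < y) (hk : 0 < k) (hy' : 0 < y') (hk' : 0 < k') :
    (((Ioc 0 X).filter (fun l => Hit P t Z y k l ∧ Hit P t Z y' k' l)).card : ℝ) ≤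
      1 + X * ((1 / M P y k) * (1 / M P y' k')) + X * E P y k y' k' := by
  have hM := M_pos hP hy hk
  have hM' := M_pos hP hy' hk'
  have hMr : (0 : ℝ) < M P y k := by exact_mod_cast (by omega : 0 < M P y k)
  have hMr' : (0 : ℝ) < M P y' k' := by exact_mod_cast (by omega : 0 < M P y' k')
  have hE := E_nonneg P y k y' k'
  rcases Finset.eq_empty_or_nonempty
    ((Ioc 0 X).filter (fun l => Hit P t Z y k l ∧ Hit P t Z y' k' l)) with h0 | ⟨l0, hl0⟩
  · rw [h0, Finset.card_empty, Nat.cast_zero]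
    positivity
  · obtain ⟨_, hl1, hl2⟩ := Finset.mem_filter.mp hl0
    set g := Nat.gcd (M P y k) (M P y' k') with hg
    set L := Nat.lcm (M P y k) (M P y' k') with hL
    have hgL : g * L = M P y k * M P y' k' := Nat.gcd_mul_lcm _ _
    have hL0 : 0 < L := Nat.lcm_pos (by omega) (by omega)
    have hLr : (0 : ℝ) < L := by exact_mod_cast hL0
    have hg0 : 0 < g := Nat.gcd_pos_of_pos_left _ (by omega)
    have hsub : (Ioc 0 X).filter (fun l => Hit P t Z y k l ∧ Hit P t Z y' k' l) ⊆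
        (Ioc 0 X).filter (fun l => l % L = l0 % L) := by
      intro l hl
      obtain ⟨h1, h2, h3⟩ := Finset.mem_filter.mp hl
      rw [Finset.mem_filter]
      refine ⟨h1, ?_⟩
      obtain ⟨s, _, hs⟩ := hit_class' (Z := Z) hP ht hy hk
      obtain ⟨s', _, hs'⟩ := hit_class' (Z := Z) hP ht' hy' hk'
      have e1 : l ≡ l0 [MOD M P y k] := by
        rw [Nat.ModEq, (hs l).mp h2, (hs l0).mp hl1]
      have e2 : l ≡ l0 [MOD M P y' k'] := by
        rw [Nat.ModEq, (hs' l).mp h3, (hs' l0).mp hl2]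
      have e3 : l ≡ l0 [MOD L] := by
        rw [Nat.modEq_iff_dvd] at e1 e2 ⊢
        rw [Int.natCast_dvd] at e1 e2 ⊢
        exact Nat.lcm_dvd e1 e2
      exact e3
    have h1 := (abs_le.mp (count_class X L (l0 % L) hL0 (Nat.mod_lt _ hL0))).2
    have h2 : (((Ioc 0 X).filter (fun l => Hit P t Z y k l ∧ Hit P t Z y' k' l)).card : ℝ) ≤
        ((Ioc 0 X).filter (fun l => l % L = l0 % L)).card := by
      exact_mod_cast Finset.card_le_card hsub
    have hgLr : (g : ℝ) * L = M P y k * M P y' k' := by exact_mod_cast hgL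
    have h3 : (X : ℝ) / L = X * ((g : ℝ) / (M P y k * M P y' k')) := by
      rw [← hgLr]
      have : (0 : ℝ) < g := by exact_mod_cast hg0
      field_simp
    rcases (by omega : g = 1 ∨ 1 < g) with hg1 | hg1
    · rw [hg1] at h3
      have h4 : (X : ℝ) * (((1 : ℕ) : ℝ) / (M P y k * M P y' k')) =
          X * ((1 / M P y k) * (1 / M P y' k')) := by
        push_cast
        field_simp
      have h5 : 0 ≤ (X : ℝ) * E P y k y' k' := by positivity
      linarith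
    · have hc := hit_compat hy hy' (Nat.gcd_dvd_left _ _) (Nat.gcd_dvd_right _ _) hl1 hl2
      have hc2 := c4 hP hy hk hy' hk' (Nat.gcd_dvd_left _ _) (Nat.gcd_dvd_right _ _) hc
      have h4 : E P y k y' k' = (g : ℝ) / (M P y k * M P y' k') := by
        unfold E
        rw [if_pos ⟨hg1, hc, hc2⟩]
      rw [h4]
      have h5 : 0 ≤ (X : ℝ) * ((1 / M P y k) * (1 / M P y' k')) := by positivity
      linarith

lemma E_le' {P w Y : ℕ} (hP : 0 < P) {v v' : ℕ × ℕ}
    (hw : ∀ g : ℕ, 1 < g → g ∣ M P v.1 v.2 → w < g) (hv : v ∈ V Y) (hv' : v' ∈ V Y) :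
    E P v.1 v.2 v'.1 v'.2 ≤ (if v = v' then (1 / v.1 : ℝ) * (1 / v.2) else 0) +
      F P w Y v v' + F P w Y v' v := by
  obtain ⟨⟨a1, a2⟩, ⟨a3, a4⟩⟩ := mem_V hv
  obtain ⟨⟨b1, b2⟩, ⟨b3, b4⟩⟩ := mem_V hv'
  have hF := F_nonneg P w Y v v'
  have hF' := F_nonneg P w Y v' v
  have hPr : (1 : ℝ) ≤ P := by exact_mod_cast hP
  have e1 : (1 : ℝ) ≤ v.1 := by exact_mod_cast a1
  have e2 : (1 : ℝ) ≤ v.2 := by exact_mod_cast a3
  have hD : (0 : ℝ) ≤ (if v = v' then (1 / v.1 : ℝ) * (1 / v.2) else 0) := by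
    split_ifs <;> positivity
  unfold E
  split_ifs with hc heq heq
  · -- diagonal
    subst heq
    rw [Nat.gcd_self]
    have m1 : 3 * (P * v.1 * v.2 : ℝ) ≤ M P v.1 v.2 := by exact_mod_cast M_lower hP a1 a3
    have hMr : (0 : ℝ) < M P v.1 v.2 := lt_of_lt_of_le (by positivity) m1
    have h1 : (M P v.1 v.2 : ℝ) / (M P v.1 v.2 * M P v.1 v.2) ≤ (1 / v.1 : ℝ) * (1 / v.2) := by
      have e3 : (M P v.1 v.2 : ℝ) / (M P v.1 v.2 * M P v.1 v.2) = 1 / M P v.1 v.2 := by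
        field_simp
      have e4 : (1 / v.1 : ℝ) * (1 / v.2) = 1 / (v.1 * v.2) := by field_simp
      rw [e3, e4]
      refine one_div_le_one_div_of_le (by positivity) ?_
      have : (v.1 : ℝ) * v.2 ≤ P * (v.1 * v.2) := le_mul_of_one_le_left (by positivity) hPr
      have h0 : (0 : ℝ) ≤ P * (v.1 * v.2) := by positivity
      nlinarith
    linarith
  · -- off the diagonal
    obtain ⟨hg1, hgy, hgk⟩ := hc
    set g := Nat.gcd (M P v.1 v.2) (M P v'.1 v'.2) with hg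
    have hgM : g ∣ M P v.1 v.2 := Nat.gcd_dvd_left _ _
    have hgM' : g ∣ M P v'.1 v'.2 := Nat.gcd_dvd_right _ _
    have hwg := hw g hg1 hgM
    have key : ∀ u u' : ℕ × ℕ, (1 ≤ u.1 ∧ 1 ≤ u.2) → (1 ≤ u'.1 ∧ 1 ≤ u'.2 ∧ u'.1 ≤ Y ∧ u'.2 ≤ Y) →
        g ∣ M P u.1 u.2 → u.1 % g = u'.1 % g → u.2 % g = u'.2 % g →
        (u.1 < u'.1 ∨ (u.1 = u'.1 ∧ u.2 < u'.2)) →
        (g : ℝ) / (M P u.1 u.2 * M P u'.1 u'.2) ≤ F P w Y u u' := by
      intro u u' hu hu' hgu h1 h2 h3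
      have hgY : g ∈ Ioc w Y := by
        rw [Finset.mem_Ioc]
        refine ⟨hwg, ?_⟩
        rcases h3 with h3 | h3
        · exact (dvd_abs_of_mod h1 h3).trans hu'.2.2.1
        · exact (dvd_abs_of_mod h2 h3.2).trans hu'.2.2.2
      have h4 := Finset.single_le_sum (f := fun d : ℕ =>
        if (d ∣ M P u.1 u.2 ∧ (u.1 % d = u'.1 % d ∧ u.2 % d = u'.2 % d ∧
          (u.1 < u'.1 ∨ (u.1 = u'.1 ∧ u.2 < u'.2)))) then
        ((d : ℝ) / (9 * P ^ 2) * ((1 / u.1) * (1 / u.2))) * ((1 / u'.1) * (1 / u'.2)) else 0)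
        (s := Ioc w Y) (fun d _ => by split_ifs <;> positivity) hgY
      beta_reduce at h4
      rw [if_pos (⟨hgu, h1, h2, h3⟩ : g ∣ M P u.1 u.2 ∧ (u.1 % g = u'.1 % g ∧
        u.2 % g = u'.2 % g ∧ (u.1 < u'.1 ∨ (u.1 = u'.1 ∧ u.2 < u'.2))))] at h4
      exact (frac_le hP hu.1 hu.2 hu'.1 hu'.2.1).trans h4
    rcases lt_trichotomy v.1 v'.1 with h | h | h
    · have := key v v' ⟨a1, a3⟩ ⟨b1, b3, b2, b4⟩ hgM hgy hgk (Or.inl h)
      linarith
    · rcases lt_trichotomy v.2 v'.2 with h' | h' | h'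
      · have := key v v' ⟨a1, a3⟩ ⟨b1, b3, b2, b4⟩ hgM hgy hgk (Or.inr ⟨h, h'⟩)
        linarith
      · exact absurd (Prod.ext h h') heq
      · have := key v' v ⟨b1, b3⟩ ⟨a1, a3, a2, a4⟩ hgM' hgy.symm hgk.symm (Or.inr ⟨h.symm, h'⟩)
        rw [mul_comm] at this
        linarith
    · have := key v' v ⟨b1, b3⟩ ⟨a1, a3, a2, a4⟩ hgM' hgy.symm hgk.symm (Or.inl h)
      rw [mul_comm] at this
      linarith
  · have : (0 : ℝ) ≤ (1 / v.1 : ℝ) * (1 / v.2) := by positivity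
    linarith
  · linarith

lemma corr_sum' {P w Y N : ℕ} (hP : 0 < P) (h5 : 5 ∣ P) (hw1 : 1 ≤ w)
    (V' : Finset (ℕ × ℕ)) (hV : V' ⊆ V Y)
    (hw : ∀ v ∈ V', ∀ g : ℕ, 1 < g → g ∣ M P v.1 v.2 → w < g)
    (hN : ∀ y ∈ Icc 1 Y, ∀ k ∈ Icc 1 Y, M P y k ≤ N) :
    ∑ v ∈ V', ∑ v' ∈ V', E P v.1 v.2 v'.1 v'.2 ≤ H Y * H Y +
      2 * ((H Y / (9 * P ^ 2)) * (2 * (20 * P * H Y + 4 * (H Y * H N)) +
        2 * (2 * (H Y * H Y) + 2 * (H Y * H Y * H Y / w)))) := by
  have hH := H_nonneg Y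
  have hPr : (0 : ℝ) < P := by exact_mod_cast hP
  have hnn : ∀ v v' : ℕ × ℕ, 0 ≤ (if v = v' then (1 / v.1 : ℝ) * (1 / v.2) else 0) +
      F P w Y v v' + F P w Y v' v := fun v v' => by
    have h1 := F_nonneg P w Y v v'
    have h2 := F_nonneg P w Y v' v
    have h3 : (0 : ℝ) ≤ (if v = v' then (1 / v.1 : ℝ) * (1 / v.2) else 0) := by
      split_ifs <;> positivity
    linarith
  have h1 : ∑ v ∈ V', ∑ v' ∈ V', E P v.1 v.2 v'.1 v'.2 ≤
      ∑ v ∈ V Y, ∑ v' ∈ V Y, ((if v = v' then (1 / v.1 : ℝ) * (1 / v.2) else 0) +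
      F P w Y v v' + F P w Y v' v) := by
    refine (Finset.sum_le_sum fun v hv => Finset.sum_le_sum fun v' hv' =>
      E_le' hP (hw v hv) (hV hv) (hV hv')).trans ?_
    refine (Finset.sum_le_sum fun v _ => Finset.sum_le_sum_of_subset_of_nonneg hV
      fun v' _ _ => hnn v v').trans ?_
    exact Finset.sum_le_sum_of_subset_of_nonneg hV
      fun v _ _ => Finset.sum_nonneg fun v' _ => hnn v v'
  refine h1.trans ?_
  simp_rw [Finset.sum_add_distrib]
  have h2 : ∑ v ∈ V Y, ∑ v' ∈ V Y, (if v = v' then (1 / v.1 : ℝ) * (1 / v.2) else 0) =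
      H Y * H Y := by
    have : ∀ v ∈ V Y, ∑ v' ∈ V Y, (if v = v' then (1 / v.1 : ℝ) * (1 / v.2) else 0) =
        (1 / v.1 : ℝ) * (1 / v.2) := by
      intro v hv
      rw [Finset.sum_ite_eq, if_pos hv]
    rw [Finset.sum_congr rfl this, V, Finset.sum_product, H, Finset.sum_mul_sum]
  have h3 : ∑ v ∈ V Y, ∑ v' ∈ V Y, F P w Y v' v = ∑ v ∈ V Y, ∑ v' ∈ V Y, F P w Y v v' :=
    Finset.sum_comm
  have h4 : ∑ v ∈ V Y, ∑ v' ∈ V Y, F P w Y v v' ≤
      (H Y / (9 * P ^ 2)) * (2 * (20 * P * H Y + 4 * (H Y * H N)) +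
        2 * (2 * (H Y * H Y) + 2 * (H Y * H Y * H Y / w))) := by
    refine (Finset.sum_le_sum fun v hv => F_sum hP hw1 hv).trans ?_
    rw [← Finset.mul_sum]
    gcongr
    simp_rw [Finset.sum_add_distrib]
    have sb : ∑ v ∈ V Y, ∑ d ∈ Ioc w Y,
        (H Y / d) * (if d ∣ M P v.1 v.2 then (1 / v.1 : ℝ) * (1 / v.2) else 0) ≤
        2 * (H Y * H Y) + 2 * (H Y * H Y * H Y / w) := by
      rw [Finset.sum_comm]
      refine le_trans (le_of_eq ?_) (Sb_le hP h5 hw1)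
      refine Finset.sum_congr rfl fun d _ => ?_
      rw [← Finset.mul_sum, V, Finset.sum_product]
      rfl
    have sc : ∑ v ∈ V Y, ∑ d ∈ Ioc w Y,
        (if d ∣ M P v.1 v.2 then (1 / (v.1 : ℝ) ^ 2) * (1 / v.2) else 0) ≤
        20 * P * H Y + 4 * (H Y * H N) := by
      rw [V, Finset.sum_product]
      exact Sc_le hP hN _
    have sa : ∑ v ∈ V Y, ∑ d ∈ Ioc w Y,
        (if d ∣ M P v.1 v.2 then (1 / v.1 : ℝ) * (1 / v.2) * (1 / (v.2 % d : ℕ)) else 0) ≤
        (20 * P * H Y + 4 * (H Y * H N)) + (2 * (H Y * H Y) + 2 * (H Y * H Y * H Y / w)) := by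
      rw [Finset.sum_comm]
      have h5' : ∀ d ∈ Ioc w Y, ∑ v ∈ V Y,
          (if d ∣ M P v.1 v.2 then (1 / v.1 : ℝ) * (1 / v.2) * (1 / (v.2 % d : ℕ)) else 0) ≤
          (∑ y ∈ Icc 1 Y, ∑ k ∈ Icc 1 Y,
            (if d ∣ M P y k then (1 / (k : ℝ) ^ 2) * (1 / y) else 0)) +
            (H Y / d) * G P Y d := by
        intro d hd
        rw [Finset.mem_Ioc] at hd
        rw [V, Finset.sum_product]
        exact Sa_one hP (by omega) hd.2
      refine (Finset.sum_le_sum h5').trans ?_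
      rw [Finset.sum_add_distrib]
      refine add_le_add ?_ (Sb_le hP h5 hw1)
      refine le_trans (le_of_eq ?_) (Sc_le' hP h5 hN (Ioc w Y))
      calc ∑ d ∈ Ioc w Y, ∑ y ∈ Icc 1 Y, ∑ k ∈ Icc 1 Y,
            (if d ∣ M P y k then (1 / (k : ℝ) ^ 2) * (1 / y) else 0)
          = ∑ d ∈ Ioc w Y, ∑ k ∈ Icc 1 Y, ∑ y ∈ Icc 1 Y,
            (if d ∣ M P y k then (1 / (k : ℝ) ^ 2) * (1 / y) else 0) :=
            Finset.sum_congr rfl fun d _ => Finset.sum_comm
        _ = ∑ k ∈ Icc 1 Y, ∑ d ∈ Ioc w Y, ∑ y ∈ Icc 1 Y,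
            (if d ∣ M P y k then (1 / (k : ℝ) ^ 2) * (1 / y) else 0) := Finset.sum_comm
        _ = _ := Finset.sum_congr rfl fun k _ => Finset.sum_comm
    linarith
  linarith

lemma pow_fact_bound {T : ℝ} (hT : 0 ≤ T) {n : ℕ} (hn : 8 * T ≤ n) :
    T ^ n / (n.factorial : ℝ) ≤ Real.exp (-T) := by
  have h1 := Real.pow_div_factorial_le_exp (8 * T) (by positivity) n
  have h2 : Real.exp (8 * T) ≤ Real.exp n := Real.exp_le_exp.mpr hn
  have h3 : (8 : ℝ) ^ n * (T ^ n / (n.factorial : ℝ)) ≤ Real.exp n := by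
    calc _ = (8 * T) ^ n / (n.factorial : ℝ) := by rw [mul_pow]; ring
      _ ≤ _ := h1.trans h2
  have h4 : Real.exp (n : ℝ) * Real.exp n ≤ 8 ^ n := by
    have : Real.exp (n : ℝ) = Real.exp 1 ^ n := by rw [← Real.exp_nat_mul, mul_one]
    rw [this, ← mul_pow]
    have := Real.exp_one_lt_d9
    have h0 := Real.exp_pos 1
    gcongr
    nlinarith
  have h5 : T ^ n / (n.factorial : ℝ) ≤ Real.exp (-n) := by
    rw [Real.exp_neg]
    have hpos := Real.exp_pos (n : ℝ)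
    rw [← one_div, le_div_iff₀ hpos]
    have h6 : 0 ≤ T ^ n / (n.factorial : ℝ) := by positivity
    have h7 : Real.exp (n : ℝ) * Real.exp n * (T ^ n / (n.factorial : ℝ)) ≤ Real.exp n := by
      calc _ ≤ (8 : ℝ) ^ n * (T ^ n / (n.factorial : ℝ)) := by gcongr
        _ ≤ _ := h3
    nlinarith
  refine h5.trans (Real.exp_le_exp.mpr ?_)
  have : T ≤ n := by linarith
  linarith


/-- the primes up to `W` -/
def PrW (W : ℕ) : Finset ℕ := (Icc 1 W).filter Nat.Prime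

/-- no prime factor up to `W` -/
def Rough (W n : ℕ) : Prop := ∀ p ∈ PrW W, ¬ p ∣ n

instance (W n : ℕ) : Decidable (Rough W n) := by unfold Rough; infer_instance

lemma PrW_prime {W p : ℕ} (hp : p ∈ PrW W) : p.Prime := (Finset.mem_filter.mp hp).2

lemma rough_large {W n g : ℕ} (h : Rough W n) (hg : 1 < g) (hgn : g ∣ n) : W < g := by
  by_contra hcon
  push Not at hcon
  have hq := Nat.minFac_prime (n := g) (by omega)
  have h2 : g.minFac ≤ g := Nat.minFac_le (by omega)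
  refine h g.minFac ?_ ((Nat.minFac_dvd g).trans hgn)
  rw [PrW, Finset.mem_filter, Finset.mem_Icc]
  exact ⟨⟨hq.one_lt.le, h2.trans hcon⟩, hq⟩

/-- the classes to be sieved out -/
def Om5 (y Z0 p : ℕ) : Finset ℕ := (range p).filter (fun u => p ∣ M 5 y (u + Z0))

lemma card_Om5 {y Z0 p : ℕ} (hy : 1 ≤ y) (hZ : 1 ≤ Z0) : (Om5 y Z0 p).card ≤ 1 := by
  rw [Finset.card_le_one]
  intro u hu u' hu'
  rw [Om5, Finset.mem_filter, Finset.mem_range] at hu hu'
  have h1 : u + Z0 ≡ u' + Z0 [MOD p] :=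
    c4 (by norm_num) hy (by omega) hy (by omega) hu.2 hu'.2 rfl
  have h2 : u ≡ u' [MOD p] := Nat.ModEq.add_right_cancel' Z0 h1
  rwa [Nat.ModEq, Nat.mod_eq_of_lt hu.1, Nat.mod_eq_of_lt hu'.1] at h2

lemma mem_Om5 {y Z0 p l : ℕ} (hy : 1 ≤ y) (hZ : 1 ≤ Z0) (hp : p.Prime) :
    l % p ∈ Om5 y Z0 p ↔ p ∣ M 5 y (l + Z0) := by
  rw [Om5, Finset.mem_filter, Finset.mem_range]
  have h1 : (l % p + Z0) % p = (l + Z0) % p := by simp [Nat.add_mod]
  constructor
  · rintro ⟨_, h⟩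
    exact c3 (by norm_num) hy (by omega) hy (by omega) h rfl h1
  · intro h
    exact ⟨Nat.mod_lt _ hp.pos, c3 (by norm_num) hy (by omega) hy (by omega) h rfl h1.symm⟩

lemma H_eq (N : ℕ) : H N = (harmonic N : ℝ) := by
  rw [H, harmonic_eq_sum_Icc]
  push_cast
  simp only [one_div]

lemma log_le_H (N : ℕ) : Real.log ((N : ℝ) + 1) ≤ H N := by
  rw [H_eq]
  have := log_add_one_le_harmonic N
  push_cast at this
  exact this

lemma H_le (N : ℕ) : H N ≤ 1 + Real.log N := by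
  rw [H_eq]
  exact harmonic_le_one_add_log N

/-- rough values in an interval -/
lemma rough_count {y W Z0 r : ℕ} (N0 : ℕ) (hy : 1 ≤ y) (hZ : 1 ≤ Z0) (hW : 2 ≤ W) (hr : Odd r)
    (hrW : 8 * (10 + 2 * Real.log W) ≤ ((r + 1 : ℕ) : ℝ)) :
    N0 / (2000 * Real.log W) - (1 + (W : ℝ)) ^ r ≤
      (((Ioc Z0 (Z0 + N0)).filter (fun k => Rough W (M 5 y k))).card : ℝ) := by
  have hWr : (2 : ℝ) ≤ W := by exact_mod_cast hW
  have hlog : 0 < Real.log W := Real.log_pos (by linarith)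
  have hlogW : Real.log W ≤ W := (Real.log_le_sub_one_of_pos (by linarith)).trans (by linarith)
  have h := brun_lower N0 (Om5 y Z0) (PrW W) (fun p hp => PrW_prime hp)
    (fun p hp u hu => Finset.mem_range.mp (Finset.mem_filter.mp hu).1) r hr
  -- the product
  have hprod : 1 / (1000 * Real.log W) ≤ ∏ p ∈ PrW W, (1 - ((Om5 y Z0 p).card / p : ℝ)) := by
    have h1 := Pool.Agent.MT.mertens W hW
    have h2 : 1 / (1000 * Real.log W) ≤ ∏ p ∈ PrW W, (1 - 1 / (p : ℝ)) := by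
      rw [div_le_iff₀ (by positivity)]
      have e : ∏ p ∈ PrW W, (1 - 1 / (p : ℝ)) * (1000 * Real.log W) =
          ∏ p ∈ PrW W, (1 - 1 / (p : ℝ)) * (1000 * Real.log W) := rfl
      calc (1 : ℝ) ≤ _ := h1
        _ = (∏ p ∈ PrW W, (1 - 1 / (p : ℝ))) * (1000 * Real.log W) := by
            change 1000 * (∏ p ∈ PrW W, (1 - 1 / (p : ℝ))) * Real.log W = _
            ring
    refine h2.trans (Finset.prod_le_prod (fun p hp => ?_) fun p hp => ?_)
    · have : (1 : ℝ) ≤ p := by exact_mod_cast (PrW_prime hp).one_lt.le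
      have h3 : 1 / (p : ℝ) ≤ 1 := by rw [div_le_one (by linarith)]; exact this
      linarith
    · have h3 : ((Om5 y Z0 p).card : ℝ) ≤ 1 := by exact_mod_cast card_Om5 hy hZ
      have h4 : ((Om5 y Z0 p).card / p : ℝ) ≤ 1 / p := by gcongr
      linarith
  -- the sum of the densities
  set T := ∑ p ∈ PrW W, ((Om5 y Z0 p).card / p : ℝ) with hT
  have hT0 : 0 ≤ T := Finset.sum_nonneg fun p _ => by positivity
  have hsub : PrW W ⊆ Icc 1 W := Finset.filter_subset _ _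
  have hT1 : T ≤ 10 + 2 * Real.log W := by
    have h1 : T ≤ ∑ p ∈ PrW W, (1 / p : ℝ) := by
      refine Finset.sum_le_sum fun p hp => ?_
      have h3 : ((Om5 y Z0 p).card : ℝ) ≤ 1 := by exact_mod_cast card_Om5 hy hZ
      gcongr
    have h2 : ∑ p ∈ PrW W, (1 / p : ℝ) ≤ H W :=
      Finset.sum_le_sum_of_subset_of_nonneg hsub fun _ _ _ => by positivity
    have h3 := H_le W
    linarith
  have herr : T ^ (r + 1) / ((r + 1).factorial : ℝ) ≤ 1 / (2000 * Real.log W) := by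
    have h1 : T ^ (r + 1) / ((r + 1).factorial : ℝ) ≤
        (10 + 2 * Real.log W) ^ (r + 1) / ((r + 1).factorial : ℝ) := by gcongr
    have h2 := pow_fact_bound (by positivity : 0 ≤ 10 + 2 * Real.log W) hrW
    refine h1.trans (h2.trans ?_)
    have e1 : Real.exp (-(10 + 2 * Real.log W)) = 1 / (Real.exp 10 * (W * W)) := by
      rw [Real.exp_neg, Real.exp_add, ← one_div]
      congr 2
      rw [two_mul, Real.exp_add, Real.exp_log (by linarith)]
    have e2 : (2000 : ℝ) ≤ Real.exp 10 := by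
      have b1 := Real.exp_one_gt_d9
      have b2 : Real.exp 10 = Real.exp 1 ^ 10 := by rw [← Real.exp_nat_mul]; norm_num
      have b3 : (2.7 : ℝ) ^ 10 ≤ Real.exp 1 ^ 10 :=
        pow_le_pow_left₀ (by norm_num) (by linarith) 10
      rw [b2]
      norm_num at b3 ⊢
      linarith
    rw [e1]
    refine one_div_le_one_div_of_le (by positivity) ?_
    have e3 : Real.log W ≤ W * W := by nlinarith
    have e4 : 2000 * Real.log W ≤ Real.exp 10 * Real.log W := by gcongr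
    have e5 : Real.exp 10 * Real.log W ≤ Real.exp 10 * (W * W) := by
      have := Real.exp_pos 10
      gcongr
    linarith
  have hsumW : (1 + ∑ p ∈ PrW W, ((Om5 y Z0 p).card : ℝ)) ^ r ≤ (1 + (W : ℝ)) ^ r := by
    have h1 : ∑ p ∈ PrW W, ((Om5 y Z0 p).card : ℝ) ≤ W := by
      calc ∑ p ∈ PrW W, ((Om5 y Z0 p).card : ℝ) ≤ ∑ p ∈ PrW W, (1 : ℝ) :=
            Finset.sum_le_sum fun p _ => by exact_mod_cast card_Om5 hy hZ
        _ = (PrW W).card := by rw [Finset.sum_const, nsmul_eq_mul, mul_one]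
        _ ≤ W := by
            have : (PrW W).card ≤ W := by
              calc (PrW W).card ≤ (Icc 1 W).card := Finset.card_le_card hsub
                _ = W := by simp
            exact_mod_cast this
    have h0 : (0 : ℝ) ≤ 1 + ∑ p ∈ PrW W, ((Om5 y Z0 p).card : ℝ) := by positivity
    exact pow_le_pow_left₀ h0 (by linarith) r
  -- the sifted set
  have hset : ((Ioc 0 N0).filter (fun l => ∀ p ∈ PrW W, l % p ∉ Om5 y Z0 p)).card ≤
      ((Ioc Z0 (Z0 + N0)).filter (fun k => Rough W (M 5 y k))).card := by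
    rw [← Finset.card_image_of_injective _ (add_left_injective Z0)]
    refine Finset.card_le_card fun k hk => ?_
    obtain ⟨l, hl, rfl⟩ := Finset.mem_image.mp hk
    obtain ⟨h1, h2⟩ := Finset.mem_filter.mp hl
    rw [Finset.mem_Ioc] at h1
    simp only [Finset.mem_filter, Finset.mem_Ioc]
    refine ⟨⟨by omega, by omega⟩, fun p hp => ?_⟩
    rw [← mem_Om5 hy hZ (PrW_prime hp)]
    exact h2 p hp
  have hset' : (((Ioc 0 N0).filter (fun l => ∀ p ∈ PrW W, l % p ∉ Om5 y Z0 p)).card : ℝ) ≤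
      (((Ioc Z0 (Z0 + N0)).filter (fun k => Rough W (M 5 y k))).card : ℝ) := by
    exact_mod_cast hset
  have hN0 : (0 : ℝ) ≤ N0 := Nat.cast_nonneg _
  have hmain : (N0 : ℝ) / (2000 * Real.log W) ≤
      N0 * ((∏ p ∈ PrW W, (1 - ((Om5 y Z0 p).card / p : ℝ))) -
        T ^ (r + 1) / ((r + 1).factorial : ℝ)) := by
    have e : (N0 : ℝ) / (2000 * Real.log W) =
        N0 * (1 / (1000 * Real.log W) - 1 / (2000 * Real.log W)) := by
      field_simp
      ring
    rw [e]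
    gcongr
  linarith

/-- logarithmic density of the rough values -/
lemma rough_log {y W a r : ℕ} (hy : 1 ≤ y) (hW : 2 ≤ W) (hr : Odd r)
    (hrW : 8 * (10 + 2 * Real.log W) ≤ ((r + 1 : ℕ) : ℝ))
    (ha : 4000 * Real.log W * (1 + (W : ℝ)) ^ r ≤ 2 ^ a) (m : ℕ) :
    m / (8000 * Real.log W) ≤
      ∑ k ∈ (Icc 1 (2 ^ (a + m))).filter (fun k => Rough W (M 5 y k)), (1 / k : ℝ) := by
  have hWr : (2 : ℝ) ≤ W := by exact_mod_cast hW
  have hlog : 0 < Real.log W := Real.log_pos (by linarith)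
  induction m with
  | zero =>
    simp only [Nat.cast_zero, zero_div]
    exact Finset.sum_nonneg fun _ _ => by positivity
  | succ m ih =>
    set Z0 : ℕ := 2 ^ (a + m) with hZ0
    have hZ1 : 1 ≤ Z0 := Nat.one_le_two_pow
    have e1 : 2 ^ (a + (m + 1)) = Z0 + Z0 := by rw [← add_assoc, pow_succ, hZ0]; ring
    have hdis : Disjoint ((Icc 1 Z0).filter (fun k => Rough W (M 5 y k)))
        ((Ioc Z0 (Z0 + Z0)).filter (fun k => Rough W (M 5 y k))) := by
      rw [Finset.disjoint_left]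
      intro k hk hk'
      have h1 := Finset.mem_Icc.mp (Finset.mem_filter.mp hk).1
      have h2 := Finset.mem_Ioc.mp (Finset.mem_filter.mp hk').1
      omega
    have hsub : (Icc 1 Z0).filter (fun k => Rough W (M 5 y k)) ∪
        (Ioc Z0 (Z0 + Z0)).filter (fun k => Rough W (M 5 y k)) ⊆
        (Icc 1 (2 ^ (a + (m + 1)))).filter (fun k => Rough W (M 5 y k)) := by
      rw [e1]
      intro k hk
      rw [Finset.mem_union] at hk
      rcases hk with hk | hk
      · obtain ⟨h1, h2⟩ := Finset.mem_filter.mp hk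
        rw [Finset.mem_Icc] at h1
        rw [Finset.mem_filter, Finset.mem_Icc]
        exact ⟨⟨h1.1, by omega⟩, h2⟩
      · obtain ⟨h1, h2⟩ := Finset.mem_filter.mp hk
        rw [Finset.mem_Ioc] at h1
        rw [Finset.mem_filter, Finset.mem_Icc]
        exact ⟨⟨by omega, by omega⟩, h2⟩
    have hblock : 1 / (8000 * Real.log W) ≤
        ∑ k ∈ (Ioc Z0 (Z0 + Z0)).filter (fun k => Rough W (M 5 y k)), (1 / k : ℝ) := by
      have hZr : (1 : ℝ) ≤ Z0 := by exact_mod_cast hZ1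
      have h1 := rough_count (r := r) Z0 hy hZ1 hW hr hrW
      have h2 : (((Ioc Z0 (Z0 + Z0)).filter (fun k => Rough W (M 5 y k))).card : ℝ) *
          (1 / (2 * Z0)) ≤
          ∑ k ∈ (Ioc Z0 (Z0 + Z0)).filter (fun k => Rough W (M 5 y k)), (1 / k : ℝ) := by
        rw [← nsmul_eq_mul, ← Finset.sum_const]
        refine Finset.sum_le_sum fun k hk => ?_
        have h3 := Finset.mem_Ioc.mp (Finset.mem_filter.mp hk).1
        have h4 : (k : ℝ) ≤ 2 * Z0 := by
          have : k ≤ 2 * Z0 := by omega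
          exact_mod_cast this
        have h5 : (0 : ℝ) < k := by exact_mod_cast (by omega : 0 < k)
        exact one_div_le_one_div_of_le h5 h4
      have h3 : 4000 * Real.log W * (1 + (W : ℝ)) ^ r ≤ Z0 := by
        refine ha.trans ?_
        rw [hZ0]
        push_cast
        exact pow_le_pow_right₀ (by norm_num) (by omega)
      have h4 : ((Z0 : ℝ) / (2000 * Real.log W) - (1 + (W : ℝ)) ^ r) * (1 / (2 * Z0)) ≤
          (((Ioc Z0 (Z0 + Z0)).filter (fun k => Rough W (M 5 y k))).card : ℝ) *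
          (1 / (2 * Z0)) := by gcongr
      refine le_trans ?_ (h4.trans h2)
      have e2 : ((Z0 : ℝ) / (2000 * Real.log W) - (1 + (W : ℝ)) ^ r) * (1 / (2 * Z0)) =
          1 / (4000 * Real.log W) - (1 + (W : ℝ)) ^ r / (2 * Z0) := by
        field_simp
        ring
      rw [e2]
      have h5 : (1 + (W : ℝ)) ^ r / (2 * Z0) ≤ 1 / (8000 * Real.log W) := by
        rw [div_le_div_iff₀ (by positivity) (by positivity)]
        nlinarith
      have e3 : 1 / (4000 * Real.log W) = 2 * (1 / (8000 * Real.log W)) := by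
        field_simp
        ring
      rw [e3]
      linarith
    calc ((m + 1 : ℕ) : ℝ) / (8000 * Real.log W) =
          m / (8000 * Real.log W) + 1 / (8000 * Real.log W) := by push_cast; ring
      _ ≤ _ := add_le_add ih hblock
      _ = ∑ k ∈ (Icc 1 Z0).filter (fun k => Rough W (M 5 y k)) ∪
          (Ioc Z0 (Z0 + Z0)).filter (fun k => Rough W (M 5 y k)), (1 / k : ℝ) :=
          (Finset.sum_union hdis).symm
      _ ≤ _ := Finset.sum_le_sum_of_subset_of_nonneg hsub fun _ _ _ => by positivity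

end Pool.Agent.Lib.MP_9aa437_nt.Quad
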